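import Pool.Agent.Work.MP_f6e909_al.GP.Defs
import Pool.Agent.Work.MP_29a457_al.Higman

/-!
# A group with `b a b⁻¹ = a²`, `b = t a t⁻¹`, in which `a t` and `a b` are free (module Hnn, size L)

Take `G₀ = Equiv.Perm ℚ`, `β = Equiv.addRight 1` (`x ↦ x + 1`), `α = (x ↦ 2 x)`; see
`Pool/Agent/Work/MP_29a457_al/Higman.lean` (Mathlib only, may be imported) for `α`, `β`, `αβ`
(`α * β * α⁻¹ = β ^ 2`), `β_zpow`, `α_zpow`. Let `H = HNNExtension G₀ (zpowers β) (zpowers α) φ`,
where `φ` maps `β` to `α` (both have infinite order), `a = of β`, `t` the stable letter. Then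
`t a t⁻¹ = of α` (`HNNExtension.equiv_eq_conj`), so `bg a t = 1`.

Put `x = a * t`, `z = a * (t * a * t⁻¹) = of ζ`, `ζ = β * α : y ↦ 2 y + 1`. One computes
`ζ ^ n y = 2 ^ n y + 2 ^ n - 1`. So `ζ ^ n ∈ zpowers β` only for `n = 0`, and
`β⁻¹ * ζ ^ n * β = (α * β) ^ n ∈ zpowers α` only for `n = 0` (value at `0` is `2 (2 ^ n - 1)`).

Words. Every element of `FreeGroup (Fin 2)` (`of 0 ↦ x`, `of 1 ↦ z`) is a product
`z^{n₀} x^{ε₁} z^{n₁} ⋯ x^{ε_k} z^{n_k}` with `n_i ≠ 0` whenever `ε_i ≠ ε_{i+1}` (for instance by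
`FreeGroup` ≃ `HNNExtension (Multiplicative ℤ) ⊥ ⊥` and its reduced words, or by induction on
multiplication with a generator from the left). Since `x^{+1} = a t`, `x^{-1} = t⁻¹ a⁻¹`, its image
is the product of the reduced word (`HNNExtension.ReducedWord`) with head `ζ^{n₀} c'(ε₁)` and
letters `(ε_i, c(ε_i) ζ^{n_i} c'(ε_{i+1}))`, where `c(+) = 1`, `c(-) = β⁻¹`, `c'(+) = β`,
`c'(-) = 1` (and `c'` of the end is `1`). It is reduced: for `ε_i = +, ε_{i+1} = -` the middle
element is `ζ^{n_i}`, not in `zpowers β`; for `-, +` it is `β⁻¹ ζ^{n_i} β`, not in `zpowers α`.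
By `HNNExtension.ReducedWord.map_fst_eq_and_of_prod_eq` (number of letters and their signs are
determined by the product):

* `ι` is injective (a word with trivial image has `k = 0`, `ζ^{n₀} = 1`, so `n₀ = 0`);
* (Mem0) if `of g` is in the range of `ι` then `g = ζ ^ n` for some `n`;
* (Mem1) if `of g * t` is in the range of `ι`, then `k = 1`, `ε₁ = +`, so
  `of g * t = ζ^{n₀} β t ζ^{n₁}`; comparing, `t * of (ζ^{n₁}) * t⁻¹ ∈ range of`, so `n₁ = 0`
  (Britton, as `ζ^{n₁} ∉ zpowers β` otherwise) and `g = ζ^{n₀} β`.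

The eleven elements. `β²`, `β`, `β³` are not powers of `ζ` (`ζ ^ n` is a translation only for
`n = 0`); `α⁻¹ β²`: it would be `ζ⁻¹ = α⁻¹ β⁻¹`; `β² α`: it would be `ζ = β α`; `β² t`, `β⁴ t`, `t`:
`β`, `β³`, `β⁻¹` would be powers of `ζ`; `t⁻¹ β²` and `t⁻¹`: their inverses are `β⁻² t`, `t`, so
`β⁻³`, `β⁻¹` would be powers of `ζ`. The hypothesis is stated through `gF`-like lists.
-/

namespace ProfArtin

open HNNExtension HNNExtension.NormalWord Pool.Agent.Work.MP_29a457_al.Higman

/-- the five elements `1, a, b, t, a² t` of a group with two marked elements -/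
def g5 {H : Type} [Group H] (a t : H) : Fin 5 → H := ![1, a, t * a * t⁻¹, t, a ^ 2 * t]

namespace HnnAux

/-- the permutations of the rationals -/
abbrev PQ : Type := Equiv.Perm ℚ

/-- `x ↦ 2 x + 1` -/
def ζ : PQ := β * α

theorem α_apply (y : ℚ) : α y = 2 * y := rfl
theorem β_apply (y : ℚ) : β y = y + 1 := rfl
theorem ζ_apply (y : ℚ) : ζ y = 2 * y + 1 := rfl

theorem ζ_zpow (n : ℤ) (y : ℚ) : (ζ ^ n) y = 2 ^ n * y + (2 ^ n - 1) := by
  have hnat : ∀ (m : ℕ) (y : ℚ), (ζ ^ m) y = 2 ^ m * y + (2 ^ m - 1) := by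
    intro m
    induction m with
    | zero => simp
    | succ m ih =>
      intro y
      rw [pow_succ, Equiv.Perm.mul_apply, ih, ζ_apply]
      ring
  cases n with
  | ofNat m => simpa using hnat m y
  | negSucc m =>
    rw [zpow_negSucc, Equiv.Perm.inv_eq_iff_eq, hnat, zpow_negSucc]
    field_simp
    ring

theorem two_zpow {n : ℤ} (h : (2 : ℚ) ^ n = 1) : n = 0 :=
  zpow_right_injective₀ (by norm_num) (by norm_num) (by simpa using h : (2 : ℚ) ^ n = 2 ^ (0 : ℤ))

theorem ζ_test {n : ℤ} {g : PQ} (h : ζ ^ n = g) : g 1 = 1 + 2 * g 0 := by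
  rw [← h, ζ_zpow, ζ_zpow]
  ring

theorem ζ_inj {n : ℤ} (h : ζ ^ n = 1) : n = 0 := by
  have h0 := congrArg (fun f : PQ => f 0) h
  simp only [ζ_zpow, Equiv.Perm.one_apply] at h0
  exact two_zpow (by linarith)

/-- the subgroup generated by `β` -/
abbrev A : Subgroup PQ := (zpowersHom PQ β).range

/-- the subgroup generated by `α` -/
abbrev B : Subgroup PQ := (zpowersHom PQ α).range

theorem mem_A {g : PQ} : g ∈ A ↔ ∃ n : ℤ, β ^ n = g := by
  constructor
  · rintro ⟨n, rfl⟩
    exact ⟨n.toAdd, rfl⟩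
  · rintro ⟨n, rfl⟩
    exact ⟨Multiplicative.ofAdd n, rfl⟩

theorem mem_B {g : PQ} : g ∈ B ↔ ∃ n : ℤ, α ^ n = g := by
  constructor
  · rintro ⟨n, rfl⟩
    exact ⟨n.toAdd, rfl⟩
  · rintro ⟨n, rfl⟩
    exact ⟨Multiplicative.ofAdd n, rfl⟩

theorem β_inj : Function.Injective (zpowersHom PQ β) := by
  rw [injective_iff_map_eq_one]
  intro n hn
  have h0 : β ^ n.toAdd = 1 := hn
  exact (inter 0 n.toAdd (by rw [h0, zpow_zero])).2

theorem α_inj : Function.Injective (zpowersHom PQ α) := by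
  rw [injective_iff_map_eq_one]
  intro n hn
  have h0 : α ^ n.toAdd = 1 := hn
  exact (inter n.toAdd 0 (by rw [h0, zpow_zero])).1

/-- the identification of `A` and `B` -/
noncomputable def φ : A ≃* B :=
  (MonoidHom.ofInjective β_inj).symm.trans (MonoidHom.ofInjective α_inj)

theorem φ_β : ((φ ⟨β, mem_A.2 ⟨1, zpow_one _⟩⟩ : B) : PQ) = α := by
  have h1 : (MonoidHom.ofInjective β_inj).symm ⟨β, mem_A.2 ⟨1, zpow_one _⟩⟩ =
      Multiplicative.ofAdd 1 := by
    rw [MulEquiv.symm_apply_eq]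
    apply Subtype.ext
    change β = β ^ (1 : ℤ)
    rw [zpow_one]
  change ((MonoidHom.ofInjective α_inj ((MonoidHom.ofInjective β_inj).symm _)) : PQ) = α
  rw [h1]
  change α ^ (1 : ℤ) = α
  rw [zpow_one]

/-- the group -/
abbrev H : Type := HNNExtension PQ A B φ

theorem ζ_not_A {n : ℤ} (h : ζ ^ n ∈ A) : n = 0 := by
  obtain ⟨m, hm⟩ := mem_A.1 h
  have h0 := congrArg (fun f : PQ => f 0) hm
  have h1 := congrArg (fun f : PQ => f 1) hm
  simp only [ζ_zpow, β_zpow] at h0 h1
  exact two_zpow (by linarith)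

theorem conj_not_B {n : ℤ} (h : β⁻¹ * ζ ^ n * β ∈ B) : n = 0 := by
  obtain ⟨m, hm⟩ := mem_B.1 h
  have h0 := congrArg (fun f : PQ => f 0) hm
  simp only [Equiv.Perm.mul_apply, α_zpow, β_apply] at h0
  rw [← zpow_neg_one β, β_zpow, ζ_zpow] at h0
  push_cast at h0
  exact two_zpow (by linarith)

/-- left factor after `t ^ u` -/
def cL (u : ℤˣ) : PQ := if u = 1 then 1 else β⁻¹

/-- right factor before `t ^ u` -/
def cR (u : ℤˣ) : PQ := if u = 1 then β else 1

/-- right factor before a list -/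
def hd : List (ℤˣ × ℤ) → PQ
  | [] => 1
  | (u, _) :: _ => cR u

/-- the letters -/
def conv : List (ℤˣ × ℤ) → List (ℤˣ × PQ)
  | [] => []
  | (u, n) :: l => (u, cL u * ζ ^ n * hd l) :: conv l

/-- the image of `of 0` -/
noncomputable def xx : H := of β * t

theorem xx_zpow (u : ℤˣ) : xx ^ (u : ℤ) = of (cR u) * t ^ (u : ℤ) * of (cL u) := by
  rcases Int.units_eq_one_or u with rfl | rfl
  · simp [xx, cR, cL]
  · have : (-1 : ℤˣ) ≠ 1 := by decide
    simp [xx, cR, cL, this, mul_inv_rev]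

theorem prod_conv (l : List (ℤˣ × ℤ)) :
    (l.map (fun x => xx ^ (x.1 : ℤ) * (of (ζ ^ x.2) : H))).prod =
      of (hd l) * ((conv l).map (fun x => (t : H) ^ (x.1 : ℤ) * of x.2)).prod := by
  induction l with
  | nil => simp [hd, conv]
  | cons a l ih =>
    obtain ⟨u, n⟩ := a
    rw [List.map_cons, List.prod_cons, ih]
    simp only [conv, List.map_cons, List.prod_cons, hd]
    rw [xx_zpow, map_mul, map_mul]
    simp only [mul_assoc]

theorem chain_conv (l : List (ℤˣ × ℤ)) (h : l.IsChain (fun a b => a.2 = 0 → a.1 = b.1)) :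
    (conv l).IsChain (fun a b => a.2 ∈ toSubgroup A B a.1 → a.1 = b.1) := by
  induction l with
  | nil => exact List.isChain_nil
  | cons a l ih =>
    obtain ⟨u, n⟩ := a
    cases l with
    | nil => simp [conv]
    | cons b l =>
      obtain ⟨u', n'⟩ := b
      rw [List.isChain_cons_cons] at h
      simp only [conv]
      rw [List.isChain_cons_cons]
      refine ⟨?_, ih h.2⟩
      intro hm
      by_contra hne
      have hne' : u ≠ u' := hne
      have h1 := h.1
      simp only at h1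
      rcases Int.units_eq_one_or u with rfl | rfl
      · have hu' : u' = -1 := by
          rcases Int.units_eq_one_or u' with rfl | rfl
          · exact absurd rfl hne'
          · rfl
        subst hu'
        have h2 : (-1 : ℤˣ) ≠ 1 := by decide
        simp only [toSubgroup_one, cL, hd, cR, if_true, if_neg h2, one_mul, mul_one] at hm
        exact hne (h1 (ζ_not_A hm))
      · have hu' : u' = 1 := by
          rcases Int.units_eq_one_or u' with rfl | rfl
          · rfl
          · exact absurd rfl hne'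
        subst hu'
        have h2 : (-1 : ℤˣ) ≠ 1 := by decide
        simp only [toSubgroup_neg_one, cL, hd, cR, if_true, if_neg h2] at hm
        exact hne (h1 (conj_not_B hm))

/-- the reduced word of a word in `x`, `z` -/
def word (n : ℤ) (l : List (ℤˣ × ℤ)) (h : l.IsChain (fun a b => a.2 = 0 → a.1 = b.1)) :
    ReducedWord PQ A B where
  head := ζ ^ n * hd l
  toList := conv l
  chain := chain_conv l h

theorem word_prod (n : ℤ) (l : List (ℤˣ × ℤ))
    (h : l.IsChain (fun a b => a.2 = 0 → a.1 = b.1)) :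
    (word n l h).prod φ = of (ζ ^ n) * (l.map (fun x => xx ^ (x.1 : ℤ) * (of (ζ ^ x.2) : H))).prod := by
  rw [prod_conv, ReducedWord.prod, word, map_mul, mul_assoc]

/-- the embedding of the free group -/
noncomputable def ι : FreeGroup (Fin 2) →* H := FreeGroup.lift ![xx, of ζ]

theorem ι_zero : ι (FreeGroup.of 0) = xx := by simp [ι]
theorem ι_one : ι (FreeGroup.of 1) = of ζ := by simp [ι]

theorem exists_word (w : FreeGroup (Fin 2)) :
    ∃ (n : ℤ) (l : List (ℤˣ × ℤ)) (_ : l.IsChain (fun a b => a.2 = 0 → a.1 = b.1)),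
      w = FreeGroup.of 1 ^ n *
        (l.map (fun x => FreeGroup.of 0 ^ (x.1 : ℤ) * FreeGroup.of 1 ^ x.2)).prod := by
  let G' := HNNExtension (Multiplicative ℤ) (⊥ : Subgroup (Multiplicative ℤ)) ⊥ (MulEquiv.refl _)
  let e : FreeGroup (Fin 2) →* G' := FreeGroup.lift ![t, of (Multiplicative.ofAdd 1)]
  let r : G' →* FreeGroup (Fin 2) := HNNExtension.lift (zpowersHom _ (FreeGroup.of 1))
    (FreeGroup.of 0) (by
      rintro ⟨a, ha⟩
      have : a = 1 := by simpa using ha
      subst this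
      simp)
  have hre : ∀ w, r (e w) = w := by
    intro w
    have : r.comp e = MonoidHom.id _ := by
      apply FreeGroup.ext_hom
      intro i
      fin_cases i
      · change r (e (FreeGroup.of 0)) = FreeGroup.of 0
        simp only [e, FreeGroup.lift_apply_of, Matrix.cons_val_zero]
        exact HNNExtension.lift_t _ _ _
      · change r (e (FreeGroup.of 1)) = FreeGroup.of 1
        simp only [e, FreeGroup.lift_apply_of, Matrix.cons_val_one]
        change r (of (Multiplicative.ofAdd 1)) = _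
        rw [HNNExtension.lift_of]
        change FreeGroup.of 1 ^ (1 : ℤ) = _
        rw [zpow_one]
    exact DFunLike.congr_fun this w
  obtain ⟨d⟩ := NormalWord.TransversalPair.nonempty (Multiplicative ℤ)
    (⊥ : Subgroup (Multiplicative ℤ)) ⊥
  let W := NormalWord.equiv (MulEquiv.refl _) d (e w)
  have hW : W.prod (MulEquiv.refl _) = e w := (NormalWord.equiv (MulEquiv.refl _) d).symm_apply_apply _
  refine ⟨W.head.toAdd, W.toList.map (fun x => (x.1, x.2.toAdd)), ?_, ?_⟩
  · rw [List.isChain_map]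
    refine W.chain.imp ?_
    rintro ⟨u, n⟩ ⟨u', n'⟩ h hn
    apply h
    have hn' : n = 1 := hn
    subst hn'
    exact Subgroup.one_mem _
  · rw [← hre w, ← hW, ReducedWord.prod, map_mul, map_list_prod, List.map_map, List.map_map]
    have hh : r (of W.head) = FreeGroup.of 1 ^ W.head.toAdd := by
      rw [HNNExtension.lift_of]
      rfl
    have hl : ∀ x ∈ W.toList, (⇑r ∘ fun x : ℤˣ × Multiplicative ℤ =>
        (t : G') ^ (x.1 : ℤ) * of x.2) x =
        ((fun x : ℤˣ × ℤ => FreeGroup.of 0 ^ (x.1 : ℤ) * FreeGroup.of 1 ^ x.2) ∘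
          fun x => (x.1, Multiplicative.toAdd x.2)) x := by
      rintro ⟨u, n⟩ _
      simp only [Function.comp_apply, map_mul, map_zpow]
      have e1 : r (t : G') = FreeGroup.of 0 := HNNExtension.lift_t _ _ _
      have e2 : r (of n) = FreeGroup.of 1 ^ n.toAdd := by
        rw [HNNExtension.lift_of]
        rfl
      rw [e1, e2]
    rw [List.map_congr_left hl, hh]

theorem ι_word (n : ℤ) (l : List (ℤˣ × ℤ)) (h : l.IsChain (fun a b => a.2 = 0 → a.1 = b.1)) :
    ι (FreeGroup.of 1 ^ n *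
        (l.map (fun x => FreeGroup.of 0 ^ (x.1 : ℤ) * FreeGroup.of 1 ^ x.2)).prod) =
      (word n l h).prod φ := by
  rw [word_prod, map_mul, map_zpow, ι_one, map_list_prod, List.map_map, map_zpow]
  congr 2
  apply List.map_congr_left
  rintro ⟨u, m⟩ _
  simp only [Function.comp_apply, map_mul, map_zpow, ι_zero, ι_one]

theorem conv_nil {l : List (ℤˣ × ℤ)} (h : conv l = []) : l = [] := by
  cases l with
  | nil => rfl
  | cons a l =>
    obtain ⟨u, n⟩ := a
    simp [conv] at h

theorem mem0 {g : PQ} (h : (of g : H) ∈ ι.range) : ∃ n : ℤ, ζ ^ n = g := by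
  obtain ⟨w, hw⟩ := h
  obtain ⟨n, l, hl, rfl⟩ := exists_word w
  rw [ι_word n l hl] at hw
  have h1 := ReducedWord.toList_eq_nil_of_mem_of_range φ (word n l hl) ⟨g, hw.symm⟩
  have h2 : l = [] := conv_nil h1
  subst h2
  refine ⟨n, ?_⟩
  rw [word_prod] at hw
  simp only [List.map_nil, List.prod_nil, mul_one] at hw
  exact of_injective φ hw

theorem ι_inj : Function.Injective ι := by
  rw [injective_iff_map_eq_one]
  intro w hw
  obtain ⟨n, l, hl, rfl⟩ := exists_word w
  rw [ι_word n l hl] at hw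
  have h1 := ReducedWord.toList_eq_nil_of_mem_of_range φ (word n l hl) ⟨1, by rw [hw, map_one]⟩
  have h2 : l = [] := conv_nil h1
  subst h2
  rw [word_prod] at hw
  simp only [List.map_nil, List.prod_nil, mul_one] at hw
  have h3 : ζ ^ n = 1 := of_injective φ (by rw [hw, map_one])
  rw [ζ_inj h3]
  simp

theorem mem1 {g : PQ} (h : (of g : H) * t ∈ ι.range) : ∃ n : ℤ, ζ ^ n * β = g := by
  obtain ⟨w, hw⟩ := h
  obtain ⟨n, l, hl, rfl⟩ := exists_word w
  rw [ι_word n l hl] at hw
  let W1 : ReducedWord PQ A B := ⟨g, [(1, 1)], List.isChain_singleton _⟩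
  have hW1 : W1.prod φ = of g * t := by
    simp [W1, ReducedWord.prod]
  have h1 := (ReducedWord.map_fst_eq_and_of_prod_eq φ (hw.trans hW1.symm)).1
  have h2 : ∃ m, l = [(1, m)] := by
    cases l with
    | nil => simp [word, conv, W1] at h1
    | cons a l =>
      obtain ⟨u, m⟩ := a
      simp only [word, conv, W1, List.map_cons, List.map_nil, List.cons.injEq] at h1
      obtain ⟨h3, h4⟩ := h1
      have h5 : l = [] := conv_nil (List.map_eq_nil_iff.1 h4)
      subst h5
      subst h3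
      exact ⟨m, rfl⟩
  obtain ⟨m, rfl⟩ := h2
  rw [word_prod] at hw
  simp only [List.map_cons, List.map_nil, List.prod_cons, List.prod_nil, mul_one, Units.val_one,
    zpow_one, xx] at hw
  -- `of (ζ ^ n) * (of β * t * of (ζ ^ m)) = of g * t`
  have hm : m = 0 := by
    by_contra hm0
    have hnA : ζ ^ m ∉ A := fun h => hm0 (ζ_not_A h)
    let W2 : ReducedWord PQ A B := ⟨1, [(1, ζ ^ m), (-1, 1)], by
      rw [List.isChain_cons_cons]
      exact ⟨fun h => absurd h hnA, List.isChain_singleton _⟩⟩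
    have h6 := ReducedWord.toList_eq_nil_of_mem_of_range φ W2 ⟨(ζ ^ n * β)⁻¹ * g, by
      simp only [W2, ReducedWord.prod, List.map_cons, List.map_nil, List.prod_cons, List.prod_nil,
        mul_one, map_one, one_mul, Units.val_one, zpow_one, Units.val_neg, zpow_neg]
      rw [map_mul, map_inv, map_mul]
      rw [eq_mul_inv_iff_mul_eq, mul_assoc, ← hw]
      group⟩
    simp [W2] at h6
  subst hm
  refine ⟨n, ?_⟩
  rw [zpow_zero, map_one, mul_one, ← mul_assoc, ← map_mul] at hw
  exact of_injective φ (mul_right_cancel hw)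

theorem no0 {g : PQ} (hg : g 1 ≠ 1 + 2 * g 0) : (of g : H) ∉ ι.range := by
  intro h
  obtain ⟨n, hn⟩ := mem0 h
  exact hg (ζ_test hn)

theorem no1 {g : PQ} (hg : (g * β⁻¹) 1 ≠ 1 + 2 * (g * β⁻¹) 0) : (of g : H) * t ∉ ι.range := by
  intro h
  obtain ⟨n, hn⟩ := mem1 h
  refine hg (ζ_test (n := n) ?_)
  rw [← hn, mul_inv_cancel_right]

theorem t_conj : (t : H) * of β * t⁻¹ = of α := by
  have h := t_mul_of (φ := φ) ⟨β, mem_A.2 ⟨1, zpow_one _⟩⟩
  rw [φ_β] at h
  change t * of β = of α * t at h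
  rw [h, mul_inv_cancel_right]

theorem βinv_apply (y : ℚ) : β⁻¹ y = y - 1 := by
  rw [Equiv.Perm.inv_eq_iff_eq, β_apply]
  ring

theorem αinv_apply (y : ℚ) : α⁻¹ y = y / 2 := by
  rw [Equiv.Perm.inv_eq_iff_eq, α_apply]
  ring

theorem β2 : (β ^ 2 : PQ) = β * β := pow_two _

end HnnAux

open HnnAux in
theorem hnn_main : ∃ (H : Type) (_ : Group H) (ι : FreeGroup (Fin 2) →* H) (a t : H),
    Function.Injective ι ∧ bg a t = 1 ∧ ι (FreeGroup.of 0) = a * t ∧
    ι (FreeGroup.of 1) = a * (t * a * t⁻¹) ∧ t ∉ ι.range ∧ a ^ 2 ∉ ι.range ∧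
    (∀ i, (g5 a t i)⁻¹ * a ^ 2 ∉ ι.range) ∧ (∀ i, a ^ 2 * g5 a t i ∉ ι.range) := by
  have hsq : (of β : HnnAux.H) ^ 2 ∉ HnnAux.ι.range := by
    rw [← map_pow]
    apply no0
    simp only [β2, Equiv.Perm.mul_apply, β_apply]
    norm_num
  have ht : (t : HnnAux.H) ∉ HnnAux.ι.range := by
    have := no1 (g := 1) (by
      simp only [one_mul, βinv_apply]
      norm_num)
    rwa [map_one, one_mul] at this
  refine ⟨HnnAux.H, inferInstance, HnnAux.ι, of β, t, ι_inj, ?_, ?_, ?_, ht, hsq, ?_, ?_⟩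
  · rw [bg, t_conj, ← map_mul, ← map_inv, ← map_mul, ← map_pow, ← map_inv, ← map_mul, αβ,
      mul_inv_cancel, map_one]
  · exact ι_zero
  · rw [ι_one, t_conj, ← map_mul]
    rfl
  · intro i
    fin_cases i
    · change (1 : HnnAux.H)⁻¹ * (of β) ^ 2 ∉ _
      rw [inv_one, one_mul]
      exact hsq
    · change (of β : HnnAux.H)⁻¹ * (of β) ^ 2 ∉ _
      rw [← map_pow, ← map_inv, ← map_mul]
      apply no0
      simp only [β2, inv_mul_cancel_left, β_apply]
      norm_num
    · change ((t : HnnAux.H) * of β * t⁻¹)⁻¹ * (of β) ^ 2 ∉ _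
      rw [t_conj, ← map_pow, ← map_inv, ← map_mul]
      apply no0
      simp only [β2, Equiv.Perm.mul_apply, β_apply, αinv_apply]
      norm_num
    · change (t : HnnAux.H)⁻¹ * (of β) ^ 2 ∉ _
      rw [← inv_mem_iff, mul_inv_rev, inv_inv, ← map_pow, ← map_inv]
      apply no1
      simp only [β2, mul_inv_rev, Equiv.Perm.mul_apply, βinv_apply]
      norm_num
    · change ((of β : HnnAux.H) ^ 2 * t)⁻¹ * (of β) ^ 2 ∉ _
      rw [mul_inv_rev, mul_assoc, inv_mul_cancel, mul_one, inv_mem_iff]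
      exact ht
  · intro i
    fin_cases i
    · change (of β : HnnAux.H) ^ 2 * 1 ∉ _
      rw [mul_one]
      exact hsq
    · change (of β : HnnAux.H) ^ 2 * of β ∉ _
      rw [← map_pow, ← map_mul]
      apply no0
      simp only [β2, Equiv.Perm.mul_apply, β_apply]
      norm_num
    · change (of β : HnnAux.H) ^ 2 * (t * of β * t⁻¹) ∉ _
      rw [t_conj, ← map_pow, ← map_mul]
      apply no0
      simp only [β2, Equiv.Perm.mul_apply, β_apply, α_apply]
      norm_num
    · change (of β : HnnAux.H) ^ 2 * t ∉ _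
      rw [← map_pow]
      apply no1
      simp only [β2, Equiv.Perm.mul_apply, β_apply, βinv_apply]
      norm_num
    · change (of β : HnnAux.H) ^ 2 * ((of β) ^ 2 * t) ∉ _
      rw [← mul_assoc, ← map_pow, ← map_mul]
      apply no1
      simp only [β2, Equiv.Perm.mul_apply, β_apply, βinv_apply]
      norm_num

end ProfArtin
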