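import Pool.Agent.Work.MP_f6e909_al.GP.Defs
import Pool.Agent.Work.MP_f6e909_al.GP.Hnn

/-!
# The amalgam and its syllable length (module Amal, size M-L)

`hnn_main` is used.

Let `H`, `ι`, `a`, `t` be as in `hnn_main`, `x = a t`, `z = a (t a t⁻¹)`. Then `x² = z t²`, so
`t² = ι (z⁻¹ x²)` and `a t³ = x t² = ι (x z⁻¹ x²)`. Let `φ₀, φ₁ : FreeGroup (Fin 2) → H` be
`φ₀ : of 0 ↦ t², of 1 ↦ a t³` and `φ₁ : of 0 ↦ a t, of 1 ↦ t²`. Both are `ι` composed with an
automorphism of the free group (inverses: `x = q p⁻¹`, `z = x² p⁻¹` resp. `x = p`, `z = p² q⁻¹`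
for `(p, q)` the images of the generators), so they are injective with the same range as `ι`.

Let `K = Monoid.PushoutI φ` (`φ : Fin 2 → (FreeGroup (Fin 2) →* H)`), and
`f : QQ → K`, `sF ↦ of 1 t`, `tF ↦ of 0 t`. Since `of 1 (t²) = base (of 1) = of 0 (a t³)`, the image
of `aF` is `of 0 a`, and since `of 0 (t²) = base (of 0) = of 1 (a t)`, the image of `aF'` is
`of 1 a`; so the relators go to `1`.

Length: for a transversal `D` (`PushoutI.transversal_nonempty`) let `L y` be the number of indices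
`0` in the normal word of `y` (`NormalWord.equiv`). By `Monoid.PushoutI.Reduced.exists_normalWord_prod_eq`
and injectivity of `NormalWord.prod`, `L (ofCoprodI w.prod)` is the number of letters with index
`0` in `w`, for every reduced word `w` (letters not in the range of `φ i`).

The element in the statement is the product of the word
`[1: t⁻¹ if e = 1] [0: g_i⁻¹ a²] ([1: t] [0: a²])^{k-1} [1: t] [0: a² g_j] [1: t if e' = 1]`
(with `g_i = g5 a t i`, image of `gF i`), which is reduced by `hnn_main` and has `k + 1` letters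
with index `0`, for `k ≥ 1`.
-/

namespace ProfArtin

open Monoid Monoid.PushoutI

namespace AmalAux

private theorem map_bg' {G H : Type} [Group G] [Group H] (f : G →* H) (a t : G) :
    f (bg a t) = bg (f a) (f t) := by
  simp [bg]

variable {H : Type} [Group H]

/-- the two embeddings -/
def ph (a t : H) : (i : Fin 2) → F2 →* H :=
  ![FreeGroup.lift ![t ^ 2, a * t ^ 3], FreeGroup.lift ![a * t, t ^ 2]]

variable {ι : F2 →* H} {a t : H}

theorem tsq (h0 : ι (FreeGroup.of 0) = a * t) (h1 : ι (FreeGroup.of 1) = a * (t * a * t⁻¹)) :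
    ι ((FreeGroup.of 1)⁻¹ * FreeGroup.of 0 ^ 2) = t ^ 2 := by
  rw [map_mul, map_inv, map_pow, h0, h1, pow_two, pow_two]
  group

theorem ph0 (h0 : ι (FreeGroup.of 0) = a * t) (h1 : ι (FreeGroup.of 1) = a * (t * a * t⁻¹)) :
    ph a t 0 = ι.comp (FreeGroup.lift ![(FreeGroup.of 1)⁻¹ * FreeGroup.of 0 ^ 2,
      FreeGroup.of 0 * ((FreeGroup.of 1)⁻¹ * FreeGroup.of 0 ^ 2)]) := by
  apply FreeGroup.ext_hom
  intro i
  fin_cases i
  · simp only [ph, MonoidHom.comp_apply]
    simp only [Matrix.cons_val_zero, FreeGroup.lift_apply_of, Fin.zero_eta]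
    exact (tsq h0 h1).symm
  · simp only [ph, MonoidHom.comp_apply]
    simp only [Matrix.cons_val_zero, FreeGroup.lift_apply_of, Fin.mk_one, Matrix.cons_val_one]
    rw [map_mul, tsq h0 h1, h0]
    group

theorem ph1 (h0 : ι (FreeGroup.of 0) = a * t) (h1 : ι (FreeGroup.of 1) = a * (t * a * t⁻¹)) :
    ph a t 1 = ι.comp (FreeGroup.lift ![FreeGroup.of 0,
      (FreeGroup.of 1)⁻¹ * FreeGroup.of 0 ^ 2]) := by
  apply FreeGroup.ext_hom
  intro i
  fin_cases i
  · simp only [ph, MonoidHom.comp_apply]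
    simp only [Matrix.cons_val_zero, FreeGroup.lift_apply_of, Fin.zero_eta, Matrix.cons_val_one]
    exact h0.symm
  · simp only [ph, MonoidHom.comp_apply]
    simp only [FreeGroup.lift_apply_of, Fin.mk_one, Matrix.cons_val_one,
      Matrix.cons_val_fin_one]
    exact (tsq h0 h1).symm

theorem ph_range (h0 : ι (FreeGroup.of 0) = a * t)
    (h1 : ι (FreeGroup.of 1) = a * (t * a * t⁻¹)) (i : Fin 2) : (ph a t i).range ≤ ι.range := by
  fin_cases i
  · change (ph a t 0).range ≤ _
    rw [ph0 h0 h1]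
    rintro _ ⟨x, rfl⟩
    exact ⟨_, rfl⟩
  · change (ph a t 1).range ≤ _
    rw [ph1 h0 h1]
    rintro _ ⟨x, rfl⟩
    exact ⟨_, rfl⟩

theorem ph_inj (hι : Function.Injective ι) (h0 : ι (FreeGroup.of 0) = a * t)
    (h1 : ι (FreeGroup.of 1) = a * (t * a * t⁻¹)) (i : Fin 2) :
    Function.Injective (ph a t i) := by
  fin_cases i
  · change Function.Injective (ph a t 0)
    rw [ph0 h0 h1]
    refine hι.comp ?_
    refine Function.LeftInverse.injective (g := FreeGroup.lift
      ![FreeGroup.of 1 * (FreeGroup.of 0)⁻¹,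
        (FreeGroup.of 1 * (FreeGroup.of 0)⁻¹) ^ 2 * (FreeGroup.of 0)⁻¹]) ?_
    intro x
    have : (FreeGroup.lift ![FreeGroup.of 1 * (FreeGroup.of 0)⁻¹,
        (FreeGroup.of 1 * (FreeGroup.of 0)⁻¹) ^ 2 * (FreeGroup.of 0)⁻¹] : F2 →* F2).comp
        (FreeGroup.lift ![(FreeGroup.of 1)⁻¹ * FreeGroup.of 0 ^ 2,
      FreeGroup.of 0 * ((FreeGroup.of 1)⁻¹ * FreeGroup.of 0 ^ 2)]) = MonoidHom.id _ := by
      apply FreeGroup.ext_hom
      intro i
      fin_cases i
      · simp only [MonoidHom.comp_apply, Fin.zero_eta, FreeGroup.lift_apply_of,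
          Matrix.cons_val_zero, map_mul, map_inv, map_pow, Matrix.cons_val_one,
          MonoidHom.id_apply]
        group
      · simp only [MonoidHom.comp_apply, Fin.mk_one, FreeGroup.lift_apply_of,
          Matrix.cons_val_zero, map_mul, map_inv, map_pow, Matrix.cons_val_one,
          MonoidHom.id_apply]
        group
    exact DFunLike.congr_fun this x
  · change Function.Injective (ph a t 1)
    rw [ph1 h0 h1]
    refine hι.comp ?_
    refine Function.LeftInverse.injective (g := FreeGroup.lift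
      ![FreeGroup.of 0, FreeGroup.of 0 ^ 2 * (FreeGroup.of 1)⁻¹]) ?_
    intro x
    have : (FreeGroup.lift ![FreeGroup.of 0, FreeGroup.of 0 ^ 2 * (FreeGroup.of 1)⁻¹] :
        F2 →* F2).comp
        (FreeGroup.lift ![FreeGroup.of 0, (FreeGroup.of 1)⁻¹ * FreeGroup.of 0 ^ 2]) =
        MonoidHom.id _ := by
      apply FreeGroup.ext_hom
      intro i
      fin_cases i
      · simp only [MonoidHom.comp_apply, Fin.zero_eta, FreeGroup.lift_apply_of,
          Matrix.cons_val_zero, MonoidHom.id_apply]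
      · simp only [MonoidHom.comp_apply, Fin.mk_one, FreeGroup.lift_apply_of,
          Matrix.cons_val_zero, map_mul, map_inv, map_pow, Matrix.cons_val_one,
          MonoidHom.id_apply]
        group
    exact DFunLike.congr_fun this x

/-- the amalgam -/
abbrev KK (a t : H) : Type := PushoutI (ph a t)

/-- the map of the free group -/
def gK (a t : H) : F2 →* KK a t :=
  FreeGroup.lift ![PushoutI.of (φ := ph a t) 1 t, PushoutI.of (φ := ph a t) 0 t]

theorem gK_s : gK a t sF = PushoutI.of (φ := ph a t) 1 t := by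
  simp only [gK, sF, FreeGroup.lift_apply_of, Matrix.cons_val_zero]

theorem gK_t : gK a t tF = PushoutI.of (φ := ph a t) 0 t := by
  simp only [gK, tF, FreeGroup.lift_apply_of, Matrix.cons_val_one, Matrix.cons_val_fin_one]

theorem glue1 : PushoutI.of (φ := ph a t) 1 (t ^ 2) = PushoutI.of (φ := ph a t) 0 (a * t ^ 3) := by
  have e0 : ph a t 0 (FreeGroup.of 1) = a * t ^ 3 := by
    simp only [ph, Matrix.cons_val_zero, FreeGroup.lift_apply_of, Matrix.cons_val_one,
      Matrix.cons_val_fin_one]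
  have e1 : ph a t 1 (FreeGroup.of 1) = t ^ 2 := by
    simp only [ph, FreeGroup.lift_apply_of, Matrix.cons_val_one, Matrix.cons_val_fin_one]
  rw [← e0, ← e1, of_apply_eq_base, of_apply_eq_base]

theorem glue0 : PushoutI.of (φ := ph a t) 0 (t ^ 2) = PushoutI.of (φ := ph a t) 1 (a * t) := by
  have e0 : ph a t 0 (FreeGroup.of 0) = t ^ 2 := by
    simp only [ph, Matrix.cons_val_zero, FreeGroup.lift_apply_of]
  have e1 : ph a t 1 (FreeGroup.of 0) = a * t := by
    simp only [ph, FreeGroup.lift_apply_of, Matrix.cons_val_one, Matrix.cons_val_zero,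
      Matrix.cons_val_fin_one]
  rw [← e0, ← e1, of_apply_eq_base, of_apply_eq_base]

theorem gK_a : gK a t aF = PushoutI.of (φ := ph a t) 0 a := by
  rw [aF, map_mul, map_inv, map_pow, map_pow, gK_s, gK_t, ← map_pow, ← map_pow, glue1, ← map_inv,
    ← map_mul, mul_inv_cancel_right]

theorem gK_a' : gK a t aF' = PushoutI.of (φ := ph a t) 1 a := by
  rw [aF', map_mul, map_inv, map_pow, gK_s, gK_t, ← map_pow, glue0, ← map_inv,
    ← map_mul, mul_inv_cancel_right]

/-- the map of `QQ` -/
def fK (a t : H) (hbg : bg a t = 1) : QQ →* KK a t :=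
  QuotientGroup.lift (Subgroup.normalClosure qRels) (gK a t) (by
    have : Subgroup.normalClosure qRels ≤ (gK a t).ker := by
      apply Subgroup.normalClosure_le_normal
      rintro r (rfl | rfl)
      · change gK a t (bg aF tF) = 1
        rw [map_bg', gK_a, gK_t, ← map_bg', hbg, map_one]
      · change gK a t (bg aF' sF) = 1
        rw [map_bg', gK_a', gK_s, ← map_bg', hbg, map_one]
    exact this)

theorem fK_pi (hbg : bg a t = 1) (x : F2) : fK a t hbg (piQ x) = gK a t x := rfl

theorem gK_g (i : Fin 5) : gK a t (gF i) = PushoutI.of (φ := ph a t) 0 (g5 a t i) := by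
  fin_cases i
  · change gK a t 1 = PushoutI.of (φ := ph a t) 0 1
    rw [map_one, map_one]
  · exact gK_a
  · change gK a t (tF * aF * tF⁻¹) = PushoutI.of (φ := ph a t) 0 (t * a * t⁻¹)
    rw [map_mul, map_mul, map_inv, gK_a, gK_t, map_mul, map_mul, map_inv]
  · exact gK_t
  · change gK a t (aF ^ 2 * tF) = PushoutI.of (φ := ph a t) 0 (a ^ 2 * t)
    rw [map_mul, map_pow, gK_a, gK_t, map_mul, map_pow]

/-- the tail of the word -/
def T (a t g : H) (e' : ℕ) : ℕ → List (Σ _ : Fin 2, H)
  | 0 => ⟨1, t⟩ :: ⟨0, a ^ 2 * g⟩ :: List.replicate e' ⟨1, t⟩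
  | n + 1 => ⟨1, t⟩ :: ⟨0, a ^ 2⟩ :: T a t g e' n

theorem T_head (g : H) (e' n : ℕ) : ∃ l, T a t g e' n = ⟨1, t⟩ :: l := by
  cases n with
  | zero => exact ⟨_, rfl⟩
  | succ n => exact ⟨_, rfl⟩

theorem T_count (g : H) (e' n : ℕ) :
    ((T a t g e' n).map Sigma.fst).count 0 = n + 1 := by
  induction n with
  | zero =>
    simp only [T, List.map_cons, List.map_replicate]
    rw [List.count_cons_of_ne (by decide), List.count_cons_self, List.count_replicate]
    simp
  | succ n ih =>
    simp only [T, List.map_cons]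
    rw [List.count_cons_of_ne (by decide), List.count_cons_self, ih]

theorem T_prod (g : H) (e' n : ℕ) :
    ((T a t g e' n).map (fun x => PushoutI.of (φ := ph a t) x.1 x.2)).prod =
      (PushoutI.of (φ := ph a t) 1 t * PushoutI.of (φ := ph a t) 0 (a ^ 2)) ^ (n + 1) *
        PushoutI.of (φ := ph a t) 0 g * PushoutI.of (φ := ph a t) 1 t ^ e' := by
  induction n with
  | zero =>
    simp only [T, List.map_cons, List.map_replicate, List.prod_cons, List.prod_replicate]
    rw [map_mul, zero_add, pow_one]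
    simp only [mul_assoc]
  | succ n ih =>
    simp only [T, List.map_cons, List.prod_cons]
    rw [ih, pow_succ' _ (n + 1)]
    simp only [mul_assoc]

theorem T_mem (ht : t ∉ ι.range) (hsq : a ^ 2 ∉ ι.range) (g : H)
    (hg : a ^ 2 * g ∉ ι.range) (e' n : ℕ) : ∀ x ∈ T a t g e' n, x.2 ∉ ι.range := by
  induction n with
  | zero =>
    intro x hx
    simp only [T, List.mem_cons, List.mem_replicate] at hx
    rcases hx with rfl | rfl | ⟨_, rfl⟩
    · exact ht
    · exact hg
    · exact ht
  | succ n ih =>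
    intro x hx
    simp only [T, List.mem_cons] at hx
    rcases hx with rfl | rfl | hx
    · exact ht
    · exact hsq
    · exact ih x hx

theorem T_chain (g : H) (e' n : ℕ) (he : e' ≤ 1) :
    (T a t g e' n).IsChain (fun x y => x.1 ≠ y.1) := by
  induction n with
  | zero =>
    have h : e' = 0 ∨ e' = 1 := by omega
    rcases h with rfl | rfl
    · simp [T]
    · simp [T]
  | succ n ih =>
    obtain ⟨l, hl⟩ := T_head (a := a) (t := t) g e' n
    simp only [T]
    rw [hl] at ih ⊢
    simp only [List.isChain_cons_cons]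
    exact ⟨by decide, by decide, ih⟩

open Classical in
/-- the number of letters with index `0` -/
noncomputable def LL (D : NormalWord.Transversal (ph a t)) (y : KK a t) : ℕ :=
  ((NormalWord.equiv (d := D) y).toList.map Sigma.fst).count 0

theorem LL_word (D : NormalWord.Transversal (ph a t)) (l : List (Σ _ : Fin 2, H))
    (hl : ∀ x ∈ l, x.2 ∉ (ph a t x.1).range) (hc : l.IsChain (fun x y => x.1 ≠ y.1)) :
    LL D (l.map (fun x => PushoutI.of (φ := ph a t) x.1 x.2)).prod =
      (l.map Sigma.fst).count 0 := by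
  classical
  let w : CoprodI.Word (fun _ : Fin 2 => H) :=
    { toList := l
      ne_one := by
        intro x hx h1
        apply hl x hx
        rw [h1]
        exact Subgroup.one_mem _
      chain_ne := hc }
  have hred : PushoutI.Reduced (ph a t) w := hl
  obtain ⟨w', hw1, hw2⟩ := hred.exists_normalWord_prod_eq D
  have hprod : (l.map (fun x => PushoutI.of (φ := ph a t) x.1 x.2)).prod = w'.prod := by
    rw [hw1]
    change _ = PushoutI.ofCoprodI (List.prod (l.map fun x => CoprodI.of (M := fun _ : Fin 2 => H) (i := x.1) x.2))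
    rw [map_list_prod, List.map_map]
    congr 1
  rw [hprod, LL]
  have : NormalWord.equiv (d := D) w'.prod = w' := (NormalWord.equiv (d := D)).apply_symm_apply w'
  rw [this, hw2]

end AmalAux

open AmalAux in
theorem amal_main : ∃ (K : Type) (_ : Group K) (f : QQ →* K) (L : K → ℕ),
    ∀ k : ℕ, 1 ≤ k → ∀ i j : Fin 5, ∀ e e' : ℕ, e ≤ 1 → e' ≤ 1 →
      L ((f (piQ (gF i * sF ^ e)))⁻¹ * f (piQ (aF ^ 2 * (sF * aF ^ 2) ^ k)) *
        f (piQ (gF j * sF ^ e'))) = k + 1 := by
  obtain ⟨H, hH, ι, a, t, hι, hbg, h0, h1, ht, hsq, hl, hr⟩ := hnn_main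
  have hφ := ph_inj hι h0 h1
  have hC := ph_range h0 h1
  obtain ⟨D⟩ := NormalWord.transversal_nonempty (ph a t) hφ
  refine ⟨KK a t, inferInstance, fK a t hbg, LL D, ?_⟩
  intro k hk i j e e' he he'
  obtain ⟨n, rfl⟩ : ∃ n, k = n + 1 := ⟨k - 1, by omega⟩
  set l : List (Σ _ : Fin 2, H) := List.replicate e ⟨1, t⁻¹⟩ ++
    (⟨0, (g5 a t i)⁻¹ * a ^ 2⟩ :: T a t (g5 a t j) e' n) with hldef
  have hl1 : ∀ x ∈ l, x.2 ∉ ι.range := by
    intro x hx
    rw [hldef, List.mem_append, List.mem_replicate, List.mem_cons] at hx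
    rcases hx with ⟨_, rfl⟩ | rfl | hx
    · intro h
      exact ht (inv_mem_iff.1 h)
    · exact hl i
    · exact T_mem ht hsq _ (hr j) e' n x hx
  have hl2 : l.IsChain (fun x y => x.1 ≠ y.1) := by
    obtain ⟨l', hl'⟩ := T_head (a := a) (t := t) (g5 a t j) e' n
    have h3 := T_chain (a := a) (t := t) (g5 a t j) e' n he'
    have h4 : (⟨0, (g5 a t i)⁻¹ * a ^ 2⟩ :: T a t (g5 a t j) e' n :
        List (Σ _ : Fin 2, H)).IsChain (fun x y => x.1 ≠ y.1) := by
      rw [hl'] at h3 ⊢
      rw [List.isChain_cons_cons]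
      exact ⟨fun h => absurd h (show (0 : Fin 2) ≠ 1 by decide), h3⟩
    have h : e = 0 ∨ e = 1 := by omega
    rcases h with rfl | rfl
    · exact h4
    · change (⟨1, t⁻¹⟩ :: ⟨0, (g5 a t i)⁻¹ * a ^ 2⟩ :: T a t (g5 a t j) e' n :
        List (Σ _ : Fin 2, H)).IsChain (fun x y => x.1 ≠ y.1)
      rw [List.isChain_cons_cons]
      exact ⟨fun h => absurd h (show (1 : Fin 2) ≠ 0 by decide), h4⟩
  have h5 := LL_word D l (fun x hx h => hl1 x hx (hC _ h)) hl2
  have h6 : (l.map Sigma.fst).count 0 = n + 1 + 1 := by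
    rw [hldef, List.map_append, List.count_append, List.map_replicate, List.map_cons,
      List.count_cons_self, T_count, List.count_replicate]
    simp
  rw [h6] at h5
  rw [← h5]
  congr 1
  rw [hldef, List.map_append, List.prod_append, List.map_cons, List.prod_cons, T_prod,
    List.map_replicate, List.prod_replicate]
  rw [fK_pi, fK_pi, fK_pi]
  simp only [map_mul, map_pow, gK_s, gK_g, gK_a, map_inv, mul_inv_rev]
  rw [pow_succ (PushoutI.of (φ := ph a t) 1 t * PushoutI.of (φ := ph a t) 0 a ^ 2) n]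
  simp only [mul_assoc, inv_pow]

end ProfArtin
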