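import Pool.Agent.Work.MP_f6e909_al.Defs

/-!
# Grothendieck pairs in Artin groups (MP_f6e909_al): definitions

FIXED FILE, please do not change.

The theorem (module `Final`): let `M` be a Coxeter matrix on a finite set `S`, and let `X`, `Y` be
commuting sets of generators, each of them split in two blocks with label `∞` between the blocks
(for instance a square `x, y, x', y'` of a right angled Artin group), such that every other
generator `w` either has only labels `∞` with `X ∪ Y`, or commutes with one of the two sets and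
has even or infinite labels with the other one. Then the Artin group of `M` is not profinitely
rigid.

The idea: `QQ` is an infinite group with two generators and two relators, without finite
quotients, over which all central extensions split. The fibre product `P₀` of `⟨X⟩` and `⟨Y⟩`
over `QQ` is finitely generated, and so is `P = ⟨P₀, other generators⟩`. Every homomorphism of `P`
to a finite group extends uniquely to the Artin group `G`, so `P` and `G` have the same profinite
completion; but `P` retracts onto the fibre product `F₂ ×_QQ F₂`, which is not finitely presented,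
whereas `G` is finitely presented.
-/

namespace ProfArtin

/-- the relator `b a b⁻¹ a⁻²` with `b = t a t⁻¹` -/
def bg {G : Type} [Group G] (a t : G) : G := (t * a * t⁻¹) * a * (t * a * t⁻¹)⁻¹ * (a ^ 2)⁻¹

/-- the free group of rank two -/
abbrev F2 : Type := FreeGroup (Fin 2)

/-- first generator -/
def sF : F2 := FreeGroup.of 0

/-- second generator -/
def tF : F2 := FreeGroup.of 1

/-- `s ^ 2 * t ^ (-3)` -/
def aF : F2 := sF ^ 2 * (tF ^ 3)⁻¹

/-- `t ^ 2 * s⁻¹` -/
def aF' : F2 := tF ^ 2 * sF⁻¹

/-- the two relators -/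
def qRels : Set F2 := {bg aF tF, bg aF' sF}

/-- the group without finite quotients -/
abbrev QQ : Type := PresentedGroup qRels

/-- the projection of the free group -/
def piQ : F2 →* QQ := PresentedGroup.mk qRels

/-- no finite quotients, and all central extensions split -/
structure Super (Q : Type) [Group Q] : Prop where
  nofin : ∀ (Γ : Type) [Group Γ] [Finite Γ] (f : Q →* Γ) (x : Q), f x = 1
  split : ∀ (E : Type) [Group E] (p : E →* Q), Function.Surjective p →
    (∀ x y, p x = 1 → x * y = y * x) → ∃ s : Q →* E, ∀ x, p (s x) = x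

/-- the fibre product -/
def fib {A B Q : Type} [Group A] [Group B] [Group Q] (p : A →* Q) (q : B →* Q) :
    Subgroup (A × B) :=
  (p.comp (MonoidHom.fst A B)).eqLocus (q.comp (MonoidHom.snd A B))

theorem mem_fib {A B Q : Type} [Group A] [Group B] [Group Q] (p : A →* Q) (q : B →* Q)
    (x : A × B) : x ∈ fib p q ↔ p x.1 = q x.2 := Iff.rfl

/-- `(r, 1)` as an element of the fibre product -/
def fibL {A B Q : Type} [Group A] [Group B] [Group Q] (p : A →* Q) (q : B →* Q) (r : A)
    (hr : p r = 1) : fib p q := ⟨(r, 1), by rw [mem_fib, hr, map_one]⟩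

/-- `(1, r)` as an element of the fibre product -/
def fibR {A B Q : Type} [Group A] [Group B] [Group Q] (p : A →* Q) (q : B →* Q) (r : B)
    (hr : q r = 1) : fib p q := ⟨(1, r), by rw [mem_fib, hr, map_one]⟩

/-- the five elements `1, a, b = t a t⁻¹, t, a ^ 2 * t` -/
def gF : Fin 5 → F2 := ![1, aF, tF * aF * tF⁻¹, tF, aF ^ 2 * tF]

/-- the signs of the five elements in the Fox derivative of the first relator -/
def eF : Fin 5 → ℤ := ![-1, -1, 1, 1, -1]

/-- The hypothesis on the sets of generators `X`, `Y` with their blocks. -/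
structure Sq {S : Type} (M : CoxeterMatrix S) (X Y : Set S) (c d : S → Fin 2) : Prop where
  cX : ∀ i, ∃ x ∈ X, c x = i
  dY : ∀ i, ∃ y ∈ Y, d y = i
  XX : ∀ x ∈ X, ∀ x' ∈ X, c x ≠ c x' → M x x' = 0
  YY : ∀ y ∈ Y, ∀ y' ∈ Y, d y ≠ d y' → M y y' = 0
  XY : ∀ x ∈ X, ∀ y ∈ Y, M x y = 2
  W : ∀ w, w ∉ X → w ∉ Y → (∀ z ∈ X ∪ Y, M w z = 0) ∨
    ((∀ x ∈ X, M w x = 2) ∧ ∀ y ∈ Y, Even (M w y)) ∨
    ((∀ y ∈ Y, M w y = 2) ∧ ∀ x ∈ X, Even (M w x))

/-- `ρ` is the homomorphism of the Artin group to `F₂ × F₂` given by the blocks. -/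
structure IsRho {S : Type} (M : CoxeterMatrix S) (X Y : Set S) (c d : S → Fin 2)
    (ρ : ArtinGroup M →* F2 × F2) : Prop where
  onX : ∀ x ∈ X, ρ (gen M x) = (FreeGroup.of (c x), 1)
  onY : ∀ y ∈ Y, ρ (gen M y) = (1, FreeGroup.of (d y))
  onW : ∀ w, w ∉ X → w ∉ Y → ρ (gen M w) = 1

/-- the subgroup generated by the generators in `X` -/
def GX {S : Type} (M : CoxeterMatrix S) (X : Set S) : Subgroup (ArtinGroup M) :=
  Subgroup.closure (gen M '' X)

/-- the fibre product of `⟨X⟩` and `⟨Y⟩` over `QQ`, as a set of elements of the Artin group -/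
def P0 {S : Type} (M : CoxeterMatrix S) (X Y : Set S) (ρ : ArtinGroup M →* F2 × F2) :
    Set (ArtinGroup M) :=
  {g | ∃ a ∈ GX M X, ∃ b ∈ GX M Y, piQ (ρ a).1 = piQ (ρ b).2 ∧ g = a * b}

/-- the subgroup generated by the fibre product and the other generators -/
def PP {S : Type} (M : CoxeterMatrix S) (X Y : Set S) (ρ : ArtinGroup M →* F2 × F2) :
    Subgroup (ArtinGroup M) :=
  Subgroup.closure (P0 M X Y ρ ∪ gen M '' {w | w ∉ X ∧ w ∉ Y})

end ProfArtin
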