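import Pool.Agent.Work.MP_f6e909_al.GP.Defs

/-!
# The group `QQ` has no finite quotients and its central extensions split (module SupQ, size M)

Proof of `nofin`. First a lemma: if `a`, `t` lie in a finite group and `bg a t = 1` then `a = 1`:
`b = t a t⁻¹` has the same order `n` as `a`, and `b a b⁻¹ = a ^ 2` gives
`a = b ^ n a b ^ (-n) = a ^ (2 ^ n)`, so `n ∣ 2 ^ n - 1`, which forces `n = 1` (see
`orderOf_dvd`, `all_one` in `Pool/Agent/Work/MP_29a457_al/Higman.lean` for this argument: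
the smallest prime factor `p` of `n` would have `2 ^ n = 1` and `2 ^ (p - 1) = 1` mod `p`).
For `f : QQ →* Γ` put `s = f (piQ sF)`, `t = f (piQ tF)`. The two relators give
`s ^ 2 * (t ^ 3)⁻¹ = 1` and `t ^ 2 * s⁻¹ = 1`, so `s = t ^ 2`, `t ^ 4 = t ^ 3`, `t = 1`, `s = 1`.

Proof of `split`. Let `p : E → QQ` be onto with central kernel. Choose `s₀`, `t₀` in `E` over
`piQ sF`, `piQ tF`, and put `a₀ = s₀ ^ 2 * (t₀ ^ 3)⁻¹`, `a₀' = t₀ ^ 2 * s₀⁻¹`, `z₁ = bg a₀ t₀`,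
`z₂ = bg a₀' s₀`, which are in the kernel, hence central. For central `w`, `c` one has
`bg (a * w) (t * c) = bg a t * w⁻¹`. Put `τ = z₁ * z₂ ^ 2`, `σ = z₁ ^ 2 * z₂ ^ 3`, `s₁ = s₀ * σ`,
`t₁ = t₀ * τ`. Then `s₁ ^ 2 * (t₁ ^ 3)⁻¹ = a₀ * (σ ^ 2 * (τ ^ 3)⁻¹) = a₀ * z₁` and
`t₁ ^ 2 * s₁⁻¹ = a₀' * (τ ^ 2 * σ⁻¹) = a₀' * z₂`, so both relators are `1` at `(s₁, t₁)`, and
`PresentedGroup.toGroup` gives the section (compare with the identity by `PresentedGroup.ext`).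
-/

namespace ProfArtin

private theorem sq_one {n : ℕ} (hn : n ≠ 0) (h : n ∣ 2 ^ n - 1) : n = 1 := by
  by_contra h1
  have hp := Nat.minFac_prime h1
  obtain ⟨p, hpn⟩ : ∃ p, p = n.minFac := ⟨_, rfl⟩
  rw [← hpn] at hp
  have : Fact p.Prime := ⟨hp⟩
  have hd : p ∣ 2 ^ n - 1 := (hpn ▸ n.minFac_dvd).trans h
  have e1 : (2 : ZMod p) ^ n = 1 := by
    have h2 : ((2 ^ n - 1 : ℕ) : ZMod p) = 0 := (ZMod.natCast_eq_zero_iff _ _).2 hd
    rw [Nat.cast_sub Nat.one_le_two_pow] at h2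
    push_cast at h2
    exact sub_eq_zero.1 h2
  have h20 : (2 : ZMod p) ≠ 0 := by
    intro h0
    rw [h0, zero_pow hn] at e1
    exact zero_ne_one e1
  have e2 : (2 : ZMod p) ^ (p - 1) = 1 := ZMod.pow_card_sub_one_eq_one h20
  have hc : Nat.Coprime n (p - 1) := by
    rw [Nat.coprime_iff_gcd_eq_one]
    by_contra hg
    obtain ⟨q, hq, hqd⟩ := Nat.exists_prime_and_dvd hg
    have hqn : q ∣ n := hqd.trans (Nat.gcd_dvd_left _ _)
    have hqp : q ∣ p - 1 := hqd.trans (Nat.gcd_dvd_right _ _)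
    have h3 : p ≤ q := hpn ▸ Nat.minFac_le_of_dvd hq.two_le hqn
    have h4 : q ≤ p - 1 := Nat.le_of_dvd (by have := hp.two_le; omega) hqp
    have := hp.two_le
    omega
  have e3 : orderOf (2 : ZMod p) ∣ 1 := by
    have := Nat.dvd_gcd (orderOf_dvd_of_pow_eq_one e1) (orderOf_dvd_of_pow_eq_one e2)
    rwa [hc] at this
  have e4 : (2 : ZMod p) = 1 := by
    rw [← orderOf_eq_one_iff]
    exact Nat.dvd_one.1 e3
  have e5 : (1 : ZMod p) = 0 := by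
    calc (1 : ZMod p) = 2 - 1 := by norm_num
      _ = 0 := by rw [e4, sub_self]
  exact one_ne_zero e5

theorem bg_eq_one_finite {Γ : Type} [Group Γ] [Finite Γ] (a t : Γ) (h : bg a t = 1) : a = 1 := by
  obtain ⟨b, hb⟩ : ∃ b, b = t * a * t⁻¹ := ⟨_, rfl⟩
  have h1 : b * a * b⁻¹ = a ^ 2 := by
    have h2 : b * a * b⁻¹ * (a ^ 2)⁻¹ = 1 := by
      rw [hb]
      exact h
    exact mul_inv_eq_one.1 h2
  have h3 : ∀ k : ℕ, b ^ k * a * (b ^ k)⁻¹ = a ^ 2 ^ k := by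
    intro k
    induction k with
    | zero => simp
    | succ k ih =>
      have e : b ^ (k + 1) * a * (b ^ (k + 1))⁻¹ = b * (b ^ k * a * (b ^ k)⁻¹) * b⁻¹ := by
        rw [pow_succ']
        group
      rw [e, ih]
      have e2 : b * a ^ 2 ^ k * b⁻¹ = (b * a * b⁻¹) ^ 2 ^ k := (conj_pow).symm
      rw [e2, h1, ← pow_mul, pow_succ']
  have ho : orderOf b = orderOf a := by
    have hc : b = MulAut.conj t a := by
      rw [hb, MulAut.conj_apply]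
    rw [hc]
    exact orderOf_injective (MulAut.conj t).toMonoidHom (MulAut.conj t).injective a
  have hn : orderOf a ≠ 0 := (orderOf_pos a).ne'
  have h4 := h3 (orderOf a)
  rw [← ho, pow_orderOf_eq_one, one_mul, inv_one, mul_one] at h4
  have h5 : a ^ (2 ^ orderOf b - 1) = 1 := by
    have e : a ^ (2 ^ orderOf b - 1) * a = a := by
      rw [← pow_succ, Nat.sub_add_cancel Nat.one_le_two_pow]
      exact h4.symm
    exact mul_eq_right.1 e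
  rw [ho] at h5
  have h6 := sq_one hn (orderOf_dvd_of_pow_eq_one h5)
  exact orderOf_eq_one_iff.1 h6

theorem map_bg {G H : Type} [Group G] [Group H] (f : G →* H) (a t : G) :
    f (bg a t) = bg (f a) (f t) := by
  simp [bg]

private theorem bg_central {E : Type} [Group E] (a t w c : E) (hw : ∀ y, w * y = y * w)
    (hc : ∀ y, c * y = y * c) : bg (a * w) (t * c) = bg a t * w⁻¹ := by
  have h1 : t * c * (a * w) * (t * c)⁻¹ = t * a * t⁻¹ * w := by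
    calc t * c * (a * w) * (t * c)⁻¹ = t * (c * (a * w)) * c⁻¹ * t⁻¹ := by group
      _ = t * (a * w * c) * c⁻¹ * t⁻¹ := by rw [hc (a * w)]
      _ = t * a * (w * t⁻¹) := by group
      _ = t * a * (t⁻¹ * w) := by rw [hw t⁻¹]
      _ = t * a * t⁻¹ * w := by group
  unfold bg
  rw [h1]
  obtain ⟨b, hb⟩ : ∃ b, b = t * a * t⁻¹ := ⟨_, rfl⟩
  rw [← hb]
  have h2 : (a * w) ^ 2 = a ^ 2 * w ^ 2 := by
    have : Commute a w := (hw a).symm
    exact this.mul_pow 2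
  rw [h2]
  calc b * w * (a * w) * (b * w)⁻¹ * (a ^ 2 * w ^ 2)⁻¹
      = b * (w * (a * b⁻¹ * w⁻¹ ^ 2)) * (a ^ 2)⁻¹ := by group
    _ = b * ((a * b⁻¹ * w⁻¹ ^ 2) * w) * (a ^ 2)⁻¹ := by rw [hw (a * b⁻¹ * w⁻¹ ^ 2)]
    _ = b * a * b⁻¹ * (w * (a ^ 2 * w ^ 2)⁻¹) := by group
    _ = b * a * b⁻¹ * ((a ^ 2 * w ^ 2)⁻¹ * w) := by rw [hw ((a ^ 2 * w ^ 2)⁻¹)]
    _ = b * a * b⁻¹ * (w⁻¹ ^ 2 * ((a ^ 2)⁻¹ * w)) := by group
    _ = b * a * b⁻¹ * (w⁻¹ ^ 2 * (w * (a ^ 2)⁻¹)) := by rw [hw ((a ^ 2)⁻¹)]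
    _ = b * a * b⁻¹ * (w⁻¹ * (a ^ 2)⁻¹) := by group
    _ = b * a * b⁻¹ * ((w * a ^ 2)⁻¹ * 1) := by
      rw [hw (a ^ 2)]
      group
    _ = b * a * b⁻¹ * (a ^ 2)⁻¹ * w⁻¹ := by group

private theorem comm1 {A : Type} [CommGroup A] (x y : A) :
    (x ^ 2 * y ^ 3) ^ 2 * ((x * y ^ 2) ^ 3)⁻¹ = x := by
  rw [mul_inv_eq_iff_eq_mul, mul_pow, mul_pow, ← pow_mul, ← pow_mul, ← pow_mul, ← mul_assoc,
    ← pow_succ']

private theorem comm2 {A : Type} [CommGroup A] (x y : A) :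
    (x * y ^ 2) ^ 2 * (x ^ 2 * y ^ 3)⁻¹ = y := by
  rw [mul_inv_eq_iff_eq_mul, mul_pow, ← pow_mul, mul_left_comm, ← pow_succ']

private theorem comm1' {A : Type} [i : Group A] (hc : ∀ x y : A, x * y = y * x) (x y : A) :
    (x ^ 2 * y ^ 3) ^ 2 * ((x * y ^ 2) ^ 3)⁻¹ = x := by
  letI : CommGroup A := { i with mul_comm := hc }
  exact comm1 x y

private theorem comm2' {A : Type} [i : Group A] (hc : ∀ x y : A, x * y = y * x) (x y : A) :
    (x * y ^ 2) ^ 2 * (x ^ 2 * y ^ 3)⁻¹ = y := by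
  letI : CommGroup A := { i with mul_comm := hc }
  exact comm2 x y

private theorem piQ_rel1 : bg (piQ aF) (piQ tF) = 1 := by
  rw [← map_bg]
  exact PresentedGroup.one_of_mem (by simp [qRels])

private theorem piQ_rel2 : bg (piQ aF') (piQ sF) = 1 := by
  rw [← map_bg]
  exact PresentedGroup.one_of_mem (by simp [qRels])

private theorem hom_ext_QQ {G : Type} [Group G] (f g : QQ →* G) (hs : f (piQ sF) = g (piQ sF))
    (ht : f (piQ tF) = g (piQ tF)) : f = g := by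
  refine PresentedGroup.ext fun i => ?_
  fin_cases i
  · exact hs
  · exact ht

theorem super_QQ : Super QQ := by
  constructor
  · intro Γ _ _ f x
    obtain ⟨s, hs⟩ : ∃ s, s = f (piQ sF) := ⟨_, rfl⟩
    obtain ⟨t, ht⟩ : ∃ t, t = f (piQ tF) := ⟨_, rfl⟩
    have h1 : s ^ 2 * (t ^ 3)⁻¹ = 1 := by
      refine bg_eq_one_finite _ t ?_
      have e : s ^ 2 * (t ^ 3)⁻¹ = f (piQ aF) := by
        rw [hs, ht]
        simp [aF]
      rw [e, ht, ← map_bg, piQ_rel1, map_one]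
    have h2 : t ^ 2 * s⁻¹ = 1 := by
      refine bg_eq_one_finite _ s ?_
      have e : t ^ 2 * s⁻¹ = f (piQ aF') := by
        rw [hs, ht]
        simp [aF']
      rw [e, hs, ← map_bg, piQ_rel2, map_one]
    have h3 : s = t ^ 2 := (mul_inv_eq_one.1 h2).symm
    have h4 : s ^ 2 = t ^ 3 := mul_inv_eq_one.1 h1
    have h5 : t = 1 := by
      rw [h3, ← pow_mul] at h4
      have h6 : t ^ 3 * t = t ^ 3 := by
        rw [← pow_succ]
        exact h4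
      exact mul_eq_left.1 h6
    have h6 : s = 1 := by rw [h3, h5, one_pow]
    have h7 : f = 1 := by
      refine hom_ext_QQ f 1 ?_ ?_
      · rw [← hs, h6]
        rfl
      · rw [← ht, h5]
        rfl
    rw [h7]
    rfl
  · intro E _ p hp hcen
    obtain ⟨s₀, hs₀⟩ := hp (piQ sF)
    obtain ⟨t₀, ht₀⟩ := hp (piQ tF)
    obtain ⟨a₀, ha₀⟩ : ∃ a₀, a₀ = s₀ ^ 2 * (t₀ ^ 3)⁻¹ := ⟨_, rfl⟩
    obtain ⟨a₀', ha₀'⟩ : ∃ a₀', a₀' = t₀ ^ 2 * s₀⁻¹ := ⟨_, rfl⟩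
    have hpa : p a₀ = piQ aF := by
      rw [ha₀]
      simp [hs₀, ht₀, aF]
    have hpa' : p a₀' = piQ aF' := by
      rw [ha₀']
      simp [hs₀, ht₀, aF']
    have hk1 : p (bg a₀ t₀) = 1 := by
      rw [map_bg, hpa, ht₀, piQ_rel1]
    have hk2 : p (bg a₀' s₀) = 1 := by
      rw [map_bg, hpa', hs₀, piQ_rel2]
    obtain ⟨z₁, hz₁⟩ : ∃ z : Subgroup.center E, (z : E) = bg a₀ t₀ :=
      ⟨⟨bg a₀ t₀, Subgroup.mem_center_iff.2 fun g => (hcen _ g hk1).symm⟩, rfl⟩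
    obtain ⟨z₂, hz₂⟩ : ∃ z : Subgroup.center E, (z : E) = bg a₀' s₀ :=
      ⟨⟨bg a₀' s₀, Subgroup.mem_center_iff.2 fun g => (hcen _ g hk2).symm⟩, rfl⟩
    have hcc : ∀ (z : Subgroup.center E) (y : E), (z : E) * y = y * z :=
      fun z y => (Subgroup.mem_center_iff.1 z.2 y).symm
    have hzz : ∀ x y : Subgroup.center E, x * y = y * x := fun x y => Subtype.ext (hcc x y)
    obtain ⟨τ, hτ⟩ : ∃ τ : Subgroup.center E, τ = z₁ * z₂ ^ 2 := ⟨_, rfl⟩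
    obtain ⟨σ, hσ⟩ : ∃ σ : Subgroup.center E, σ = z₁ ^ 2 * z₂ ^ 3 := ⟨_, rfl⟩
    have q1 : σ ^ 2 * (τ ^ 3)⁻¹ = z₁ := by
      rw [hσ, hτ]
      exact comm1' hzz z₁ z₂
    have q2 : τ ^ 2 * σ⁻¹ = z₂ := by
      rw [hσ, hτ]
      exact comm2' hzz z₁ z₂
    have hpz : ∀ z : Subgroup.center E, z = z₁ ∨ z = z₂ → p (z : E) = 1 := by
      rintro z (rfl | rfl)
      · rw [hz₁, hk1]
      · rw [hz₂, hk2]
    have hpσ : p (σ : E) = 1 := by
      rw [hσ]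
      simp [hpz z₁ (Or.inl rfl), hpz z₂ (Or.inr rfl)]
    have hpτ : p (τ : E) = 1 := by
      rw [hτ]
      simp [hpz z₁ (Or.inl rfl), hpz z₂ (Or.inr rfl)]
    have r1 : (s₀ * σ) ^ 2 * ((t₀ * τ) ^ 3)⁻¹ = a₀ * z₁ := by
      have c1 : Commute s₀ (σ : E) := (hcc σ s₀).symm
      have c2 : Commute t₀ (τ : E) := (hcc τ t₀).symm
      have q1' : (σ : E) ^ 2 * ((τ : E) ^ 3)⁻¹ = z₁ := by
        rw [← q1]
        rfl
      calc (s₀ * σ) ^ 2 * ((t₀ * τ) ^ 3)⁻¹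
          = s₀ ^ 2 * (σ : E) ^ 2 * (t₀ ^ 3 * (τ : E) ^ 3)⁻¹ := by rw [c1.mul_pow, c2.mul_pow]
        _ = s₀ ^ 2 * ((σ : E) ^ 2 * ((τ : E) ^ 3)⁻¹ * (t₀ ^ 3)⁻¹) := by group
        _ = s₀ ^ 2 * ((z₁ : E) * (t₀ ^ 3)⁻¹) := by rw [q1']
        _ = s₀ ^ 2 * ((t₀ ^ 3)⁻¹ * z₁) := by rw [hcc z₁]
        _ = a₀ * z₁ := by
          rw [ha₀]
          group
    have r2 : (t₀ * τ) ^ 2 * (s₀ * σ)⁻¹ = a₀' * z₂ := by
      have c2 : Commute t₀ (τ : E) := (hcc τ t₀).symm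
      have q2' : (τ : E) ^ 2 * (σ : E)⁻¹ = z₂ := by
        rw [← q2]
        rfl
      calc (t₀ * τ) ^ 2 * (s₀ * σ)⁻¹ = t₀ ^ 2 * (τ : E) ^ 2 * (s₀ * σ)⁻¹ := by rw [c2.mul_pow]
        _ = t₀ ^ 2 * ((τ : E) ^ 2 * (σ : E)⁻¹ * s₀⁻¹) := by group
        _ = t₀ ^ 2 * ((z₂ : E) * s₀⁻¹) := by rw [q2']
        _ = t₀ ^ 2 * (s₀⁻¹ * z₂) := by rw [hcc z₂]
        _ = a₀' * z₂ := by
          rw [ha₀']
          group
    obtain ⟨f, hf⟩ : ∃ f : Fin 2 → E, f = ![s₀ * σ, t₀ * τ] := ⟨_, rfl⟩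
    have lsF : FreeGroup.lift f sF = s₀ * σ := by
      rw [hf]
      simp [sF]
    have ltF : FreeGroup.lift f tF = t₀ * τ := by
      rw [hf]
      simp [tF]
    have hrel : ∀ r ∈ qRels, FreeGroup.lift f r = 1 := by
      intro r hr
      rcases hr with rfl | rfl
      · rw [map_bg]
        have e : FreeGroup.lift f aF = a₀ * z₁ := by
          rw [← r1]
          simp only [aF, map_mul, map_pow, map_inv, lsF, ltF]
        rw [e, ltF, bg_central _ _ _ _ (hcc z₁) (hcc τ), hz₁, mul_inv_cancel]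
      · rw [map_bg]
        have e : FreeGroup.lift f aF' = a₀' * z₂ := by
          rw [← r2]
          simp only [aF', map_mul, map_pow, map_inv, lsF, ltF]
        rw [e, lsF, bg_central _ _ _ _ (hcc z₂) (hcc σ), hz₂, mul_inv_cancel]
    refine ⟨PresentedGroup.toGroup hrel, fun x => ?_⟩
    have hid : p.comp (PresentedGroup.toGroup hrel) = MonoidHom.id QQ := by
      refine hom_ext_QQ _ _ ?_ ?_
      · have e : PresentedGroup.toGroup hrel (piQ sF) = s₀ * σ := by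
          rw [← lsF]
          rfl
        rw [MonoidHom.comp_apply, e, map_mul, hpσ, mul_one, hs₀, MonoidHom.id_apply]
      · have e : PresentedGroup.toGroup hrel (piQ tF) = t₀ * τ := by
          rw [← ltF]
          rfl
        rw [MonoidHom.comp_apply, e, map_mul, hpτ, mul_one, ht₀, MonoidHom.id_apply]
    exact DFunLike.congr_fun hid x

end ProfArtin
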