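import Pool.Agent.Work.MP_f6e909_al.GP.Struct
import Pool.Agent.Work.MP_f6e909_al.GP.SupQ

/-!
# `PP` and the Artin group have the same finite quotients, first half (module Dens, size S-M)



Proof. It suffices to find `p ∈ PP` with `θ p = θ g` for the generators `g = gen M s` (the
elements `g` with this property form a subgroup). For `s` outside of `X` and `Y` take `p = gen M s`.
Let `s ∈ X`. Put `K = {a ∈ ⟨X⟩ | piQ (ρ a).1 = 1}`, which is contained in `P0` (take `b = 1`) and
normal in `⟨X⟩`. The quotient of the finite group `θ ⟨X⟩` by its normal subgroup `θ K` is a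
quotient of `⟨X⟩ / K ≅ QQ` (`gx_surj`), hence trivial by `super_QQ.nofin`; so
`θ (gen M s) ∈ θ K`. The same for `s ∈ Y`.
-/

namespace ProfArtin

variable {S : Type} {M : CoxeterMatrix S} {X Y : Set S} {c d : S → Fin 2}
  {ρ : ArtinGroup M →* F2 × F2}

private theorem dens_aux {A Q Γ : Type} [Group A] [Group Q] [Group Γ] [Finite Γ] (hQ : Super Q)
    (p : A →* Q) (hp : Function.Surjective p) (θ : A →* Γ) (a : A) :
    ∃ r, p r = 1 ∧ θ r = θ a := by
  let N : Subgroup θ.range := p.ker.map θ.rangeRestrict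
  have hN : N.Normal := Subgroup.Normal.map inferInstance _ θ.rangeRestrict_surjective
  let h : A →* θ.range ⧸ N := (QuotientGroup.mk' N).comp θ.rangeRestrict
  have hker : p.ker ≤ h.ker := by
    intro r hr
    rw [MonoidHom.mem_ker]
    exact (QuotientGroup.eq_one_iff _).2 ⟨r, hr, rfl⟩
  have hf : ∀ a, (p.liftOfSurjective hp ⟨h, hker⟩) (p a) = h a := fun a =>
    MonoidHom.liftOfRightInverse_comp_apply p _ _ ⟨h, hker⟩ a
  have h1 := hQ.nofin _ (p.liftOfSurjective hp ⟨h, hker⟩) (p a)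
  rw [hf] at h1
  have h2 : θ.rangeRestrict a ∈ N := (QuotientGroup.eq_one_iff _).1 h1
  obtain ⟨r, hr, hra⟩ := h2
  exact ⟨r, hr, congrArg Subtype.val hra⟩

theorem dens (h : Sq M X Y c d) (hρ : IsRho M X Y c d ρ) {Γ : Type} [Group Γ] [Finite Γ]
    (θ : ArtinGroup M →* Γ) (g : ArtinGroup M) : ∃ p ∈ PP M X Y ρ, θ p = θ g := by
  have htop : ((PP M X Y ρ).map θ).comap θ = ⊤ := by
    rw [eq_top_iff, ← art_closure M, Subgroup.closure_le]
    rintro _ ⟨s, rfl⟩
    show θ (gen M s) ∈ (PP M X Y ρ).map θ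
    by_cases hX : s ∈ X
    · obtain ⟨r, hr, hrs⟩ := dens_aux super_QQ
        ((piQ.comp ((MonoidHom.fst F2 F2).comp ρ)).comp (GX M X).subtype)
        (fun x => by
          obtain ⟨a, ha, hax⟩ := (gx_surj h hρ).1 x
          exact ⟨⟨a, ha⟩, hax⟩) (θ.comp (GX M X).subtype)
        ⟨gen M s, Subgroup.subset_closure ⟨s, hX, rfl⟩⟩
      refine ⟨r.1, Subgroup.subset_closure (Or.inl ⟨r.1, r.2, 1, one_mem _, ?_, ?_⟩), hrs⟩
      · have h1 : piQ (ρ r.1).1 = 1 := hr
        rw [h1, map_one]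
        exact (map_one piQ).symm
      · rw [mul_one]
    · by_cases hY : s ∈ Y
      · obtain ⟨r, hr, hrs⟩ := dens_aux super_QQ
          ((piQ.comp ((MonoidHom.snd F2 F2).comp ρ)).comp (GX M Y).subtype)
          (fun x => by
            obtain ⟨a, ha, hax⟩ := (gx_surj h hρ).2 x
            exact ⟨⟨a, ha⟩, hax⟩) (θ.comp (GX M Y).subtype)
          ⟨gen M s, Subgroup.subset_closure ⟨s, hY, rfl⟩⟩
        refine ⟨r.1, Subgroup.subset_closure (Or.inl ⟨1, one_mem _, r.1, r.2, ?_, ?_⟩), hrs⟩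
        · have h1 : piQ (ρ r.1).2 = 1 := hr
          rw [h1, map_one]
          exact map_one piQ
        · rw [one_mul]
      · exact ⟨gen M s, Subgroup.subset_closure (Or.inr ⟨s, ⟨hX, hY⟩, rfl⟩), rfl⟩
  have hg : g ∈ ((PP M X Y ρ).map θ).comap θ := by
    rw [htop]
    trivial
  exact hg

end ProfArtin
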