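import Pool.Agent.Work.MP_f6e909_al.GP.Defs

/-!
# The derivation (module Der, size M)

`der_exists`: derivations of a free group can be prescribed on the generators. Proof: let `H` be the
set of pairs `(v, k)`, `v : K →₀ ℤ`, `k : K`, with the product `(v, k) (v', k') = (v + k v', k k')`
(a semidirect product, with `k v' = mapDomain (k * ·) v'`), take `FreeGroup.lift` of
`s ↦ (single 1 1, ρ s)`, `t ↦ (0, ρ t)` and let `d` be the first component.

`der_rel`: write `s, t, a, b` for the images under `ρ` of `sF, tF, aF, tF * aF * tF⁻¹`. One has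
`d 1 = 0`, `d (u⁻¹) = - u⁻¹ d u`. So `d t = 0`, `d (t ^ k) = 0`, `d (s ^ 2) = [1] + [s]`,
`d aF = [1] + [s]`, `d (tF aF tF⁻¹) = t ([1] + [s])`. For `r = bF aF bF⁻¹ (aF ^ 2)⁻¹`, `ρ r = 1`:
`d r = d b + b d a - (b a b⁻¹) d b - (b a b⁻¹ a⁻¹) d a - (b a b⁻¹ a⁻²) d a`, where
`b a b⁻¹ = a ^ 2` in `K`, so
`d r = (t + b - a ^ 2 t - a - 1) ([1] + [s])`, which is the claim.
-/

namespace ProfArtin

private noncomputable def fAct (K : Type) [Group K] : K →* MulAut (Multiplicative (K →₀ ℤ)) where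
  toFun k := AddEquiv.toMultiplicative (Finsupp.domCongr (Equiv.mulLeft k))
  map_one' := by
    ext v x
    simp [Finsupp.domCongr, Finsupp.equivMapDomain_apply, AddEquiv.toMultiplicative]
    rfl
  map_mul' k l := by
    ext v x
    simp [Finsupp.domCongr, Finsupp.equivMapDomain_apply, AddEquiv.toMultiplicative]
    rfl

private theorem fAct_apply {K : Type} [Group K] (k : K) (v : Multiplicative (K →₀ ℤ)) :
    (fAct K k v).toAdd = Finsupp.mapDomain (fun x => k * x) v.toAdd := by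
  rw [← Equiv.coe_mulLeft, ← Finsupp.equivMapDomain_eq_mapDomain]
  rfl

theorem der_exists {K : Type} [Group K] (ρ : F2 →* K) :
    ∃ d : F2 → (K →₀ ℤ),
      (∀ u v, d (u * v) = d u + Finsupp.mapDomain (fun x => ρ u * x) (d v)) ∧
      d sF = Finsupp.single 1 1 ∧ d tF = 0 := by
  obtain ⟨L, hL⟩ : ∃ L : F2 →* SemidirectProduct (Multiplicative (K →₀ ℤ)) K (fAct K),
      L = FreeGroup.lift ![⟨Multiplicative.ofAdd (Finsupp.single 1 1), ρ sF⟩, ⟨1, ρ tF⟩] :=
    ⟨_, rfl⟩
  have hs : L sF = ⟨Multiplicative.ofAdd (Finsupp.single 1 1), ρ sF⟩ := by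
    rw [hL]
    simp [sF]
  have ht : L tF = ⟨1, ρ tF⟩ := by
    rw [hL]
    simp [tF]
  have hr : ∀ u, (L u).right = ρ u := by
    intro u
    have h : (SemidirectProduct.rightHom).comp L = ρ := by
      refine FreeGroup.ext_hom _ _ fun i => ?_
      fin_cases i
      · change (L sF).right = ρ sF
        rw [hs]
      · change (L tF).right = ρ tF
        rw [ht]
    exact DFunLike.congr_fun h u
  refine ⟨fun u => (L u).left.toAdd, ?_, ?_, ?_⟩
  · intro u v
    change (L (u * v)).left.toAdd = (L u).left.toAdd +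
      Finsupp.mapDomain (fun x => ρ u * x) (L v).left.toAdd
    rw [map_mul, SemidirectProduct.mul_left, toAdd_mul, fAct_apply, hr]
  · change (L sF).left.toAdd = _
    rw [hs]
    rfl
  · change (L tF).left.toAdd = _
    rw [ht]
    rfl

private noncomputable def T {K : Type} [Group K] (k : K) : (K →₀ ℤ) →+ (K →₀ ℤ) :=
  Finsupp.mapDomain.addMonoidHom (fun x => k * x)

private noncomputable def W {K : Type} [Group K] (ρ : F2 →* K) (x : F2) : K →₀ ℤ :=
  Finsupp.single (ρ x) 1 + Finsupp.single (ρ (x * sF)) 1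

private theorem T_W {K : Type} [Group K] (ρ : F2 →* K) (u x : F2) :
    T (ρ u) (W ρ x) = W ρ (u * x) := by
  change Finsupp.mapDomain (fun y => ρ u * y) (W ρ x) = W ρ (u * x)
  rw [W, W, Finsupp.mapDomain_add, Finsupp.mapDomain_single, Finsupp.mapDomain_single,
    ← map_mul, ← map_mul, mul_assoc]

private theorem W_congr {K : Type} [Group K] (ρ : F2 →* K) {x y : F2} (h : ρ x = ρ y) :
    W ρ x = W ρ y := by
  rw [W, W, map_mul, map_mul, h]

theorem der_rel {K : Type} [Group K] (ρ : F2 →* K) (hρ : ρ (bg aF tF) = 1) (d : F2 → (K →₀ ℤ))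
    (hd : ∀ u v, d (u * v) = d u + Finsupp.mapDomain (fun x => ρ u * x) (d v))
    (hs : d sF = Finsupp.single 1 1) (ht : d tF = 0) :
    d (bg aF tF) = ∑ i : Fin 5,
      eF i • (Finsupp.single (ρ (gF i)) 1 + Finsupp.single (ρ (gF i * sF)) 1) := by
  have hd' : ∀ u v, d (u * v) = d u + T (ρ u) (d v) := hd
  have h1 : d 1 = 0 := by
    have h := hd' 1 1
    have e : T (ρ (1 : F2)) (d 1) = d 1 := by
      change Finsupp.mapDomain (fun y => ρ 1 * y) (d 1) = d 1
      have e2 : (fun y : K => ρ (1 : F2) * y) = id := by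
        funext y
        rw [map_one, one_mul, id]
      rw [e2, Finsupp.mapDomain_id]
    rw [mul_one, e] at h
    exact left_eq_add.1 h
  have hTT : ∀ u v w, T (ρ u) (T (ρ v) w) = T (ρ (u * v)) w := by
    intro u v w
    change Finsupp.mapDomain (fun y => ρ u * y) (Finsupp.mapDomain (fun y => ρ v * y) w) =
      Finsupp.mapDomain (fun y => ρ (u * v) * y) w
    rw [← Finsupp.mapDomain_comp]
    congr 1
    funext y
    rw [Function.comp_apply, map_mul, mul_assoc]
  have hinv : ∀ u, d u⁻¹ = -T (ρ u⁻¹) (d u) := by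
    intro u
    have h := hd' u⁻¹ u
    rw [inv_mul_cancel, h1] at h
    exact eq_neg_of_add_eq_zero_left h.symm
  have hss : d (sF ^ 2) = W ρ 1 := by
    rw [sq, hd', hs]
    change _ + Finsupp.mapDomain (fun y => ρ sF * y) _ = _
    rw [Finsupp.mapDomain_single, W, map_one, one_mul, mul_one]
  have ht3 : d (tF ^ 3)⁻¹ = 0 := by
    rw [hinv, pow_succ, sq, hd', hd', ht]
    simp
  have ha : d aF = W ρ 1 := by
    rw [aF, hd', hss, ht3, map_zero, add_zero]
  obtain ⟨b, hb⟩ : ∃ b, b = tF * aF * tF⁻¹ := ⟨_, rfl⟩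
  have hbd : d b = W ρ tF := by
    rw [hb, hd', hd', hinv, ht, ha, T_W, mul_one, map_zero, neg_zero, map_zero, zero_add, add_zero]
  have hr : bg aF tF = b * aF * b⁻¹ * (aF ^ 2)⁻¹ := by
    rw [bg, hb]
  have hρ' : ρ (b * aF * b⁻¹) = ρ (aF ^ 2) := by
    rw [hr, map_mul, map_inv ρ (aF ^ 2)] at hρ
    exact mul_inv_eq_one.1 hρ
  have s1 : d (b * aF * b⁻¹) = W ρ tF + W ρ b - W ρ (aF ^ 2 * tF) := by
    rw [hd', hd', hbd, ha, hinv, hbd, T_W, T_W, map_neg, T_W, mul_one, ← mul_assoc,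
      ← sub_eq_add_neg]
    congr 1
    refine W_congr ρ ?_
    rw [map_mul, hρ', map_mul]
  have s2 : d (aF ^ 2) = W ρ 1 + W ρ aF := by
    rw [sq, hd', ha, T_W, mul_one]
  have s3 : d (bg aF tF) = W ρ tF + W ρ b - W ρ (aF ^ 2 * tF) - (W ρ 1 + W ρ aF) := by
    rw [hr, hd', s1, hinv, s2, map_neg, ← sub_eq_add_neg, hTT, map_add, T_W, T_W]
    congr 2
    · refine W_congr ρ ?_
      rw [mul_one, ← hr, hρ, map_one]
    · refine W_congr ρ ?_
      rw [← hr, map_mul, hρ, one_mul]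
  rw [s3, Fin.sum_univ_five]
  have g0 : gF 0 = 1 := rfl
  have g1 : gF 1 = aF := rfl
  have g2 : gF 2 = b := by
    rw [hb]
    rfl
  have g3 : gF 3 = tF := rfl
  have g4 : gF 4 = aF ^ 2 * tF := rfl
  have e0 : eF 0 = -1 := rfl
  have e1 : eF 1 = -1 := rfl
  have e2 : eF 2 = 1 := rfl
  have e3 : eF 3 = 1 := rfl
  have e4 : eF 4 = -1 := rfl
  rw [g0, g1, g2, g3, g4, e0, e1, e2, e3, e4]
  change _ = (-1 : ℤ) • W ρ 1 + (-1 : ℤ) • W ρ aF + (1 : ℤ) • W ρ b + (1 : ℤ) • W ρ tF +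
    (-1 : ℤ) • W ρ (aF ^ 2 * tF)
  abel

end ProfArtin
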