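import Pool.Agent.Work.MP_f6e909_al.GP.Defs

/-!
# Homomorphisms of the fibre product to finite groups (module Ext0, size M-L)

Conventions: `R₁ = ker p`, `R₂ = ker q`, `φ : fib p q → Γ`, `N₁ = φ (R₁ × 1)`, `N₂ = φ (1 × R₂)`.

(1) `N₁` and `N₂` commute elementwise, and they are normalised by the image of `φ` (because
`R₁ × 1` and `1 × R₂` are normal in the fibre product). Every value of `φ` lies in `N₁ N₂`: the
preimage `D` of `N₁ N₂` is normal of finite index in the fibre product and contains `R₁ × R₂`,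
which is the kernel of the surjection `(u, v) ↦ p u` to `Q`; so the finite group `fib / D` is a
quotient of `Q`, hence trivial by `nofin`. (For this one only needs the composite
`Q → fib / D`, `Q ≃ fib / (R₁ × R₂)`.) The elements of `Z = N₁ ∩ N₂` commute with `N₁` and `N₂`,
so with all values of `φ`.

(2) One half (`ext0_half`): there is a homomorphism `f : A → Γ` with `f r = φ (r, 1)` for
`r ∈ R₁`, `f u ∈ N₁` for all `u`, and `(f u)⁻¹ φ (u, v) ∈ N₂` for all `(u, v)`. Proof: let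
`E = {(u, n) ∈ A × Γ | n ∈ N₁, ∃ v, n⁻¹ φ (u, v) ∈ N₂}`, a subgroup (note that if `(u, v)` and
`(u, v')` are in the fibre product then `φ (u, v')⁻¹ φ (u, v) ∈ N₂`), and
`K = {(r, φ (r, 1)) | r ∈ R₁}`, a normal subgroup of `E`. The projection `E / K → Q`,
`(u, n) ↦ p u`, is onto by (1) and its kernel consists of the classes of `(1, z)`, `z ∈ Z`, which
are central. By `split` it has a section `s`. For `u : A` there is exactly one `n` with
`(u, n) ∈ E` and class `s (p u)`; `f u = n`. It is a homomorphism, and `f r = φ (r, 1)` since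
`s 1 = 1`.

(3) Apply (2) to both factors (for `B` by symmetry: use the swapped fibre product `fib q p` and
the isomorphism `(u, v) ↦ (v, u)`), to get `f`, `g`. Then `ζ (u, v) = φ (u, v) (f u * g v)⁻¹` lies
in `Z`, is a homomorphism from the fibre product to the finite group `Z`, trivial on `R₁ × R₂`,
so it factors through `Q` and is trivial by `nofin`.
-/

namespace ProfArtin

namespace Ext0Aux

variable {A B Q Γ : Type} [Group A] [Group B] [Group Q] [Group Γ]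

/-- a homomorphism to a finite group which is trivial on the kernel of a map onto `Q` is trivial -/
theorem factor {P : Type} [Group P] [Finite Γ] (hQ : Super Q) (π : P →* Q)
    (hπ : Function.Surjective π) (θ : P →* Γ) (h : ∀ x, π x = 1 → θ x = 1) (x : P) : θ x = 1 := by
  have hker : π.ker ≤ θ.ker := fun x hx => h x hx
  let f : Q →* Γ := (QuotientGroup.lift π.ker θ hker).comp
    (QuotientGroup.quotientKerEquivOfSurjective π hπ).symm.toMonoidHom
  have h1 : f (π x) = θ x := by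
    have h2 : (QuotientGroup.quotientKerEquivOfSurjective π hπ).symm (π x) =
        (QuotientGroup.mk x : P ⧸ π.ker) := by
      rw [MulEquiv.symm_apply_eq]
      rfl
    change QuotientGroup.lift π.ker θ hker
      ((QuotientGroup.quotientKerEquivOfSurjective π hπ).symm (π x)) = θ x
    rw [h2]
    rfl
  rw [← h1]
  exact hQ.nofin Γ f _

variable {p : A →* Q} {q : B →* Q}

theorem feq (x : fib p q) : p x.1.1 = q x.1.2 := x.2

theorem fibL_mul (r r' : A) (hr : p r = 1) (hr' : p r' = 1) :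
    fibL p q r hr * fibL p q r' hr' = fibL p q (r * r') (by rw [map_mul, hr, hr', mul_one]) := by
  apply Subtype.ext
  exact Prod.ext rfl (mul_one _)

theorem fibR_mul (r r' : B) (hr : q r = 1) (hr' : q r' = 1) :
    fibR p q r hr * fibR p q r' hr' = fibR p q (r * r') (by rw [map_mul, hr, hr', mul_one]) := by
  apply Subtype.ext
  exact Prod.ext (mul_one _) rfl

/-- image of the first kernel -/
def N1 (φ : fib p q →* Γ) : Subgroup Γ where
  carrier := {γ | ∃ (r : A) (hr : p r = 1), γ = φ (fibL p q r hr)}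
  mul_mem' := by
    rintro _ _ ⟨r, hr, rfl⟩ ⟨r', hr', rfl⟩
    exact ⟨r * r', by rw [map_mul, hr, hr', mul_one], by rw [← map_mul, fibL_mul]⟩
  one_mem' := ⟨1, map_one _, (map_one φ).symm⟩
  inv_mem' := by
    rintro _ ⟨r, hr, rfl⟩
    refine ⟨r⁻¹, by rw [map_inv, hr, inv_one], ?_⟩
    rw [← map_inv]
    congr 1
    apply Subtype.ext
    exact Prod.ext rfl inv_one

/-- image of the second kernel -/
def N2 (φ : fib p q →* Γ) : Subgroup Γ where
  carrier := {γ | ∃ (r : B) (hr : q r = 1), γ = φ (fibR p q r hr)}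
  mul_mem' := by
    rintro _ _ ⟨r, hr, rfl⟩ ⟨r', hr', rfl⟩
    exact ⟨r * r', by rw [map_mul, hr, hr', mul_one], by rw [← map_mul, fibR_mul]⟩
  one_mem' := ⟨1, map_one _, (map_one φ).symm⟩
  inv_mem' := by
    rintro _ ⟨r, hr, rfl⟩
    refine ⟨r⁻¹, by rw [map_inv, hr, inv_one], ?_⟩
    rw [← map_inv]
    congr 1
    apply Subtype.ext
    exact Prod.ext inv_one rfl

theorem comm12 (φ : fib p q →* Γ) {a b : Γ} (ha : a ∈ N1 φ) (hb : b ∈ N2 φ) : a * b = b * a := by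
  obtain ⟨r, hr, rfl⟩ := ha
  obtain ⟨r', hr', rfl⟩ := hb
  rw [← map_mul, ← map_mul]
  congr 1
  apply Subtype.ext
  refine Prod.ext ?_ ?_
  · change r * 1 = 1 * r
    rw [mul_one, one_mul]
  · change 1 * r' = r' * 1
    rw [mul_one, one_mul]

theorem conj1 (φ : fib p q →* Γ) (x : fib p q) {a : Γ} (ha : a ∈ N1 φ) :
    φ x * a * (φ x)⁻¹ ∈ N1 φ := by
  obtain ⟨r, hr, rfl⟩ := ha
  refine ⟨x.1.1 * r * x.1.1⁻¹, by rw [map_mul, map_mul, map_inv, hr, mul_one, mul_inv_cancel], ?_⟩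
  rw [← map_inv, ← map_mul, ← map_mul]
  congr 1
  apply Subtype.ext
  refine Prod.ext rfl ?_
  change x.1.2 * 1 * x.1.2⁻¹ = 1
  rw [mul_one, mul_inv_cancel]

theorem conj2 (φ : fib p q →* Γ) (x : fib p q) {a : Γ} (ha : a ∈ N2 φ) :
    φ x * a * (φ x)⁻¹ ∈ N2 φ := by
  obtain ⟨r, hr, rfl⟩ := ha
  refine ⟨x.1.2 * r * x.1.2⁻¹, by rw [map_mul, map_mul, map_inv, hr, mul_one, mul_inv_cancel], ?_⟩
  rw [← map_inv, ← map_mul, ← map_mul]
  congr 1
  apply Subtype.ext
  refine Prod.ext ?_ rfl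
  change x.1.1 * 1 * x.1.1⁻¹ = 1
  rw [mul_one, mul_inv_cancel]

/-- the projection to `Q` -/
def prQ (p : A →* Q) (q : B →* Q) : fib p q →* Q := (p.comp (MonoidHom.fst A B)).comp (fib p q).subtype

theorem prQ_apply (x : fib p q) : prQ p q x = p x.1.1 := rfl

theorem prQ_surj (hp : Function.Surjective p) (hq : Function.Surjective q) :
    Function.Surjective (prQ p q) := by
  intro z
  obtain ⟨a, ha⟩ := hp z
  obtain ⟨b, hb⟩ := hq z
  exact ⟨⟨(a, b), by rw [mem_fib, ha, hb]⟩, ha⟩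

/-- an element of the fibre product over `1` -/
theorem over_one (φ : fib p q →* Γ) (x : fib p q) (hx : p x.1.1 = 1) :
    ∃ a ∈ N1 φ, ∃ b ∈ N2 φ, φ x = a * b ∧ a = φ (fibL p q x.1.1 hx) ∧
      b = φ (fibR p q x.1.2 ((feq x).symm.trans hx)) := by
  refine ⟨_, ⟨x.1.1, hx, rfl⟩, _, ⟨x.1.2, (feq x).symm.trans hx, rfl⟩, ?_, rfl, rfl⟩
  rw [← map_mul]
  congr 1
  apply Subtype.ext
  refine Prod.ext ?_ ?_
  · exact (mul_one _).symm
  · exact (one_mul _).symm

/-- every value is a product -/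
theorem exists_prod [Finite Γ] (hQ : Super Q) (hp : Function.Surjective p)
    (hq : Function.Surjective q) (φ : fib p q →* Γ) (x : fib p q) :
    ∃ a ∈ N1 φ, ∃ b ∈ N2 φ, φ x = a * b := by
  let D : Subgroup (fib p q) :=
    { carrier := {x | ∃ a ∈ N1 φ, ∃ b ∈ N2 φ, φ x = a * b}
      mul_mem' := by
        rintro x y ⟨a, ha, b, hb, hx⟩ ⟨a', ha', b', hb', hy⟩
        refine ⟨a * a', mul_mem ha ha', b * b', mul_mem hb hb', ?_⟩
        rw [map_mul, hx, hy, mul_assoc, ← mul_assoc b, ← comm12 φ ha' hb]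
        simp only [mul_assoc]
      one_mem' := ⟨1, one_mem _, 1, one_mem _, by rw [map_one, one_mul]⟩
      inv_mem' := by
        rintro x ⟨a, ha, b, hb, hx⟩
        refine ⟨a⁻¹, inv_mem ha, b⁻¹, inv_mem hb, ?_⟩
        rw [map_inv, hx, mul_inv_rev, comm12 φ (inv_mem ha) (inv_mem hb)] }
  have hD : D.Normal := by
    constructor
    rintro y ⟨a, ha, b, hb, hy⟩ x
    refine ⟨_, conj1 φ x ha, _, conj2 φ x hb, ?_⟩
    rw [map_mul, map_mul, map_inv, hy]
    group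
  have hker : φ.ker ≤ D := by
    intro y hy
    exact ⟨1, one_mem _, 1, one_mem _, by rw [mul_one]; exact hy⟩
  haveI : φ.ker.FiniteIndex := inferInstance
  haveI : D.FiniteIndex := Subgroup.finiteIndex_of_le hker
  haveI : Finite (fib p q ⧸ D) := Subgroup.finite_quotient_of_finiteIndex
  have h := factor hQ (prQ p q) (prQ_surj hp hq) (QuotientGroup.mk' D) (by
    intro y hy
    rw [QuotientGroup.mk'_apply, QuotientGroup.eq_one_iff]
    obtain ⟨a, ha, b, hb, hab, _⟩ := over_one φ y hy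
    exact ⟨a, ha, b, hb, hab⟩) x
  rw [QuotientGroup.mk'_apply, QuotientGroup.eq_one_iff] at h
  exact h

/-- the pull back -/
def EE (φ : fib p q →* Γ) : Subgroup (A × Γ) where
  carrier := {e | e.2 ∈ N1 φ ∧ ∃ x : fib p q, x.1.1 = e.1 ∧ e.2⁻¹ * φ x ∈ N2 φ}
  mul_mem' := by
    rintro ⟨u, n⟩ ⟨u', n'⟩ ⟨hn, x, hx, hx2⟩ ⟨hn', x', hx', hx2'⟩
    refine ⟨mul_mem hn hn', x * x', ?_, ?_⟩
    · change x.1.1 * x'.1.1 = u * u'
      rw [hx, hx']
    · change (n * n')⁻¹ * φ (x * x') ∈ N2 φ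
      have h1 : (n * n')⁻¹ * φ (x * x') = (n⁻¹ * φ x) * (n'⁻¹ * φ x') := by
        have h2 := comm12 φ (inv_mem hn') hx2
        rw [map_mul, mul_inv_rev]
        calc n'⁻¹ * n⁻¹ * (φ x * φ x') = (n'⁻¹ * (n⁻¹ * φ x)) * φ x' := by group
          _ = ((n⁻¹ * φ x) * n'⁻¹) * φ x' := by rw [h2]
          _ = _ := by group
      rw [h1]
      exact mul_mem hx2 hx2'
  one_mem' := ⟨one_mem _, 1, rfl, by
    change (1 : Γ)⁻¹ * φ 1 ∈ N2 φ
    rw [map_one, inv_one, mul_one]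
    exact one_mem _⟩
  inv_mem' := by
    rintro ⟨u, n⟩ ⟨hn, x, hx, hx2⟩
    refine ⟨inv_mem hn, x⁻¹, ?_, ?_⟩
    · change x.1.1⁻¹ = u⁻¹
      rw [hx]
    · change (n⁻¹)⁻¹ * φ x⁻¹ ∈ N2 φ
      have h2 := comm12 φ hn hx2
      have h3 : φ x * n⁻¹ = n⁻¹ * φ x := by
        have h4 : φ x = n⁻¹ * φ x * n := by
          have h5 : n * (n⁻¹ * φ x) = n⁻¹ * φ x * n := h2
          rwa [mul_inv_cancel_left] at h5
        calc φ x * n⁻¹ = (n⁻¹ * φ x * n) * n⁻¹ := by rw [← h4]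
          _ = n⁻¹ * φ x := by group
      have h1 : (n⁻¹)⁻¹ * φ x⁻¹ = (n⁻¹ * φ x)⁻¹ := by
        rw [map_inv, ← h3]
        group
      rw [h1]
      exact inv_mem hx2

/-- the normal subgroup of the pull back -/
def KE (φ : fib p q →* Γ) : Subgroup (EE φ) where
  carrier := {e | ∃ hr : p e.1.1 = 1, e.1.2 = φ (fibL p q e.1.1 hr)}
  mul_mem' := by
    rintro ⟨⟨u, n⟩, he⟩ ⟨⟨u', n'⟩, he'⟩ ⟨hr, hn⟩ ⟨hr', hn'⟩
    have h1 : p (u * u') = 1 := by
      rw [map_mul]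
      rw [show p u = 1 from hr, show p u' = 1 from hr', mul_one]
    have e1 : n = φ (fibL p q u hr) := hn
    have e2 : n' = φ (fibL p q u' hr') := hn'
    exact ⟨h1, (congrArg₂ (· * ·) e1 e2).trans
      ((map_mul φ _ _).symm.trans (congrArg φ (fibL_mul u u' hr hr')))⟩
  one_mem' := ⟨map_one _, (map_one φ).symm⟩
  inv_mem' := by
    rintro ⟨⟨u, n⟩, he⟩ ⟨hr, hn⟩
    have h1 : p u⁻¹ = 1 := by rw [map_inv, show p u = 1 from hr, inv_one]
    have e1 : n = φ (fibL p q u hr) := hn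
    refine ⟨h1, (congrArg (·⁻¹) e1).trans ((map_inv φ _).symm.trans (congrArg φ ?_))⟩
    apply Subtype.ext
    exact Prod.ext rfl inv_one

theorem KE_normal (φ : fib p q →* Γ) : (KE φ).Normal := by
  constructor
  rintro ⟨⟨r, m⟩, he⟩ ⟨hr, hm⟩ ⟨⟨u, n⟩, he'⟩
  have hr0 : p r = 1 := hr
  have hm0 : m = φ (fibL p q r hr0) := hm
  obtain ⟨hn, x, hx, hx2⟩ := he'
  have hn0 : n ∈ N1 φ := hn
  have hx0 : x.1.1 = u := hx
  have hx20 : n⁻¹ * φ x ∈ N2 φ := hx2
  have h1 : p (u * r * u⁻¹) = 1 := by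
    rw [map_mul, map_mul, hr0, mul_one, map_inv, mul_inv_cancel]
  refine ⟨h1, ?_⟩
  change n * m * n⁻¹ = _
  have h2 : φ (fibL p q (u * r * u⁻¹) h1) = φ x * m * (φ x)⁻¹ := by
    rw [hm0, ← map_inv, ← map_mul, ← map_mul]
    congr 1
    apply Subtype.ext
    refine Prod.ext ?_ ?_
    · change u * r * u⁻¹ = x.1.1 * r * x.1.1⁻¹
      rw [hx0]
    · change 1 = x.1.2 * 1 * x.1.2⁻¹
      rw [mul_one, mul_inv_cancel]
  have hm1 : m ∈ N1 φ := ⟨r, hr0, hm0⟩
  have h3 := comm12 φ hm1 hx20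
  change _ = φ (fibL p q (u * r * u⁻¹) h1)
  rw [h2]
  have h4 : φ x = n * (n⁻¹ * φ x) := by group
  calc n * m * n⁻¹ = n * (m * (n⁻¹ * φ x)) * (n⁻¹ * φ x)⁻¹ * n⁻¹ := by group
    _ = n * ((n⁻¹ * φ x) * m) * (n⁻¹ * φ x)⁻¹ * n⁻¹ := by rw [h3]
    _ = _ := by group

/-- elements of the pull back over `1` of `A` -/
theorem EE_one (φ : fib p q →* Γ) {n : Γ} (h : ((1 : A), n) ∈ EE φ) : n ∈ N1 φ ∧ n ∈ N2 φ := by
  obtain ⟨hn, x, hx, hx2⟩ := h
  have hn0 : n ∈ N1 φ := hn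
  have hx0 : x.1.1 = 1 := hx
  have hx20 : n⁻¹ * φ x ∈ N2 φ := hx2
  refine ⟨hn0, ?_⟩
  have h1 : q x.1.2 = 1 := by
    rw [← feq x, hx0, map_one]
  have h2 : φ x ∈ N2 φ := by
    refine ⟨x.1.2, h1, ?_⟩
    congr 1
    apply Subtype.ext
    exact Prod.ext hx0 rfl
  have h3 := mul_mem h2 (inv_mem hx20)
  have h4 : φ x * (n⁻¹ * φ x)⁻¹ = n := by group
  rwa [h4] at h3

theorem half [Finite Γ] (hQ : Super Q) (hp : Function.Surjective p)
    (hq : Function.Surjective q) (φ : fib p q →* Γ) :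
    ∃ f : A →* Γ, (∀ u, f u ∈ N1 φ) ∧ (∀ (r : A) (hr : p r = 1), f r = φ (fibL p q r hr)) ∧
      ∀ x : fib p q, (f x.1.1)⁻¹ * φ x ∈ N2 φ := by
  haveI := KE_normal φ
  let pE : EE φ →* Q := (p.comp (MonoidHom.fst A Γ)).comp (EE φ).subtype
  have hpE : ∀ e : EE φ, pE e = p e.1.1 := fun _ => rfl
  let P : EE φ ⧸ KE φ →* Q := QuotientGroup.lift (KE φ) pE (fun e he => he.1)
  have hP : ∀ e : EE φ, P (QuotientGroup.mk e) = p e.1.1 := fun _ => rfl
  -- elements of the pull back over a given element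
  have hex : ∀ u : A, ∃ n : Γ, (u, n) ∈ EE φ := by
    intro u
    obtain ⟨v, hv⟩ := hq (p u)
    obtain ⟨a, ha, b, hb, hab⟩ := exists_prod hQ hp hq φ ⟨(u, v), hv.symm⟩
    refine ⟨a, ha, ⟨(u, v), hv.symm⟩, rfl, ?_⟩
    change a⁻¹ * φ ⟨(u, v), hv.symm⟩ ∈ N2 φ
    rw [hab, inv_mul_cancel_left]
    exact hb
  have hPs : Function.Surjective P := by
    intro z
    obtain ⟨u, hu⟩ := hp z
    obtain ⟨n, hn⟩ := hex u
    exact ⟨QuotientGroup.mk ⟨(u, n), hn⟩, hu⟩
  have hKmem : ∀ (r : A) (hr : p r = 1), (r, φ (fibL p q r hr)) ∈ EE φ := by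
    intro r hr
    refine ⟨⟨r, hr, rfl⟩, fibL p q r hr, rfl, ?_⟩
    change (φ (fibL p q r hr))⁻¹ * φ (fibL p q r hr) ∈ N2 φ
    rw [inv_mul_cancel]
    exact one_mem _
  have hK1 : ∀ (r : A) (hr : p r = 1),
      (QuotientGroup.mk (⟨_, hKmem r hr⟩ : EE φ) : EE φ ⧸ KE φ) = 1 := by
    intro r hr
    rw [QuotientGroup.eq_one_iff]
    exact ⟨hr, rfl⟩
  -- classes over `1`
  have hone : ∀ y : EE φ ⧸ KE φ, P y = 1 →
      ∃ (n : Γ) (hn : ((1 : A), n) ∈ EE φ), y = QuotientGroup.mk ⟨_, hn⟩ := by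
    intro y hy
    obtain ⟨⟨⟨u, n⟩, he⟩, rfl⟩ := QuotientGroup.mk_surjective y
    have hu : p u = 1 := hy
    have h1 : ((1 : A), n * (φ (fibL p q u hu))⁻¹) ∈ EE φ := by
      have h2 := mul_mem he (inv_mem (hKmem u hu))
      have h3 : ((u, n) : A × Γ) * (u, φ (fibL p q u hu))⁻¹ =
          (1, n * (φ (fibL p q u hu))⁻¹) := Prod.ext (mul_inv_cancel u) rfl
      rwa [h3] at h2
    refine ⟨_, h1, ?_⟩
    have h4 : (⟨(1, n * (φ (fibL p q u hu))⁻¹), h1⟩ : EE φ) =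
        ⟨(u, n), he⟩ * (⟨_, hKmem u hu⟩ : EE φ)⁻¹ := by
      apply Subtype.ext
      exact Prod.ext (mul_inv_cancel u).symm rfl
    rw [h4]
    rw [QuotientGroup.mk_mul, QuotientGroup.mk_inv, hK1 u hu, inv_one, mul_one]
  obtain ⟨s, hs⟩ := hQ.split (EE φ ⧸ KE φ) P hPs (by
    intro x y hx
    obtain ⟨n, hn, rfl⟩ := hone x hx
    obtain ⟨⟨⟨u, m⟩, he⟩, rfl⟩ := QuotientGroup.mk_surjective y
    rw [← QuotientGroup.mk_mul, ← QuotientGroup.mk_mul]
    congr 1
    apply Subtype.ext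
    refine Prod.ext ?_ ?_
    · change 1 * u = u * 1
      rw [one_mul, mul_one]
    · change n * m = m * n
      exact (comm12 φ he.1 (EE_one φ hn).2).symm)
  let E3 : Subgroup (EE φ) := (QuotientGroup.mk' (KE φ)).eqLocus (s.comp pE)
  have hE3 : ∀ e : EE φ, e ∈ E3 ↔ (QuotientGroup.mk e : EE φ ⧸ KE φ) = s (p e.1.1) :=
    fun _ => Iff.rfl
  let pr : E3 →* A := ((MonoidHom.fst A Γ).comp (EE φ).subtype).comp E3.subtype
  let pn : E3 →* Γ := ((MonoidHom.snd A Γ).comp (EE φ).subtype).comp E3.subtype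
  have hpr : ∀ e : E3, pr e = e.1.1.1 := fun _ => rfl
  have hpn : ∀ e : E3, pn e = e.1.1.2 := fun _ => rfl
  have hinj : Function.Injective pr := by
    rw [injective_iff_map_eq_one]
    rintro ⟨⟨⟨u, n⟩, he⟩, he3⟩ h
    have hu : u = 1 := h
    subst hu
    have h1 := (hE3 _).1 he3
    change _ = s (p 1) at h1
    rw [map_one, map_one, QuotientGroup.eq_one_iff] at h1
    obtain ⟨hr, hn⟩ := h1
    have hn0 : n = φ (fibL p q 1 hr) := hn
    have h2 : n = 1 := by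
      rw [hn0]
      exact map_one φ
    subst h2
    rfl
  have hsurj : Function.Surjective pr := by
    intro u
    obtain ⟨n, hn⟩ := hex u
    set e0 : EE φ := ⟨(u, n), hn⟩ with he0
    obtain ⟨m, hm, hy⟩ := hone (s (p u) * (QuotientGroup.mk e0)⁻¹) (by
      rw [map_mul, map_inv, hs, hP]
      exact mul_inv_cancel _)
    refine ⟨⟨⟨(1, m), hm⟩ * e0, ?_⟩, ?_⟩
    · rw [hE3, QuotientGroup.mk_mul, ← hy, inv_mul_cancel_right]
      change s (p u) = s (p (1 * u))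
      rw [one_mul]
    · change 1 * u = u
      rw [one_mul]
  let e := MulEquiv.ofBijective pr ⟨hinj, hsurj⟩
  have he : ∀ u, pr (e.symm u) = u := fun u => e.apply_symm_apply u
  refine ⟨pn.comp e.symm.toMonoidHom, ?_, ?_, ?_⟩
  · intro u
    exact (e.symm u).1.2.1
  · intro r hr
    have h1 : (⟨_, hKmem r hr⟩ : EE φ) ∈ E3 := by
      rw [hE3, hK1 r hr]
      change 1 = s (p r)
      rw [hr, map_one]
    have h2 : e.symm r = ⟨_, h1⟩ := by
      rw [MulEquiv.symm_apply_eq]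
      rfl
    change pn (e.symm r) = _
    rw [h2]
    rfl
  · intro x
    obtain ⟨hn, x', hx', hx2⟩ := (e.symm x.1.1).1.2
    have h1 : (e.symm x.1.1).1.1.1 = x.1.1 := he x.1.1
    have h2 : x'.1.1 = x.1.1 := hx'.trans h1
    change (pn (e.symm x.1.1))⁻¹ * φ x ∈ N2 φ
    have h3 : φ (x'⁻¹ * x) ∈ N2 φ := by
      have h4 : q (x'⁻¹ * x).1.2 = 1 := by
        rw [← feq (x'⁻¹ * x)]
        change p (x'.1.1⁻¹ * x.1.1) = 1
        rw [h2, inv_mul_cancel, map_one]
      refine ⟨_, h4, ?_⟩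
      congr 1
      apply Subtype.ext
      refine Prod.ext ?_ rfl
      change x'.1.1⁻¹ * x.1.1 = 1
      rw [h2, inv_mul_cancel]
    have h5 := mul_mem hx2 h3
    have h6 : (e.symm x.1.1).1.1.2⁻¹ * φ x' * φ (x'⁻¹ * x) = (pn (e.symm x.1.1))⁻¹ * φ x := by
      rw [map_mul, map_inv, hpn]
      group
    rwa [h6] at h5

/-- swapping -/
def swp (p : A →* Q) (q : B →* Q) : fib q p →* fib p q where
  toFun x := ⟨(x.1.2, x.1.1), x.2.symm⟩
  map_one' := rfl
  map_mul' _ _ := rfl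

end Ext0Aux

open Ext0Aux in
theorem ext0 {A B Q Γ : Type} [Group A] [Group B] [Group Q] [Group Γ] [Finite Γ] (hQ : Super Q)
    (p : A →* Q) (q : B →* Q) (hp : Function.Surjective p) (hq : Function.Surjective q)
    (φ : fib p q →* Γ) :
    ∃ (f : A →* Γ) (g : B →* Γ),
      (∀ a b, f a * g b = g b * f a) ∧
      (∀ x : fib p q, φ x = f x.1.1 * g x.1.2) ∧
      (∀ a, ∃ (r : A) (hr : p r = 1), f a = φ (fibL p q r hr)) ∧
      (∀ b, ∃ (r : B) (hr : q r = 1), g b = φ (fibR p q r hr)) := by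
  obtain ⟨f, hf1, hf2, hf3⟩ := half hQ hp hq φ
  obtain ⟨g, hg1, hg2, hg3⟩ := half hQ hq hp (φ.comp (swp p q))
  have hg1' : ∀ b, g b ∈ N2 φ := by
    intro b
    obtain ⟨r, hr, h⟩ := hg1 b
    exact ⟨r, hr, h⟩
  have hg2' : ∀ (r : B) (hr : q r = 1), g r = φ (fibR p q r hr) := fun r hr => hg2 r hr
  have hg3' : ∀ x : fib p q, (g x.1.2)⁻¹ * φ x ∈ N1 φ := by
    intro x
    obtain ⟨r, hr, h⟩ := hg3 ⟨(x.1.2, x.1.1), x.2.symm⟩
    exact ⟨r, hr, h⟩
  have hcomm : ∀ a b, f a * g b = g b * f a := fun a b => comm12 φ (hf1 a) (hg1' b)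
  have hz2 : ∀ x : fib p q, (f x.1.1 * g x.1.2)⁻¹ * φ x ∈ N2 φ := by
    intro x
    have h := mul_mem (inv_mem (hg1' x.1.2)) (hf3 x)
    rwa [← mul_assoc, ← mul_inv_rev] at h
  have hz1 : ∀ x : fib p q, (f x.1.1 * g x.1.2)⁻¹ * φ x ∈ N1 φ := by
    intro x
    have h := mul_mem (inv_mem (hf1 x.1.1)) (hg3' x)
    rwa [← mul_assoc, ← mul_inv_rev, ← hcomm] at h
  let ζ : fib p q →* Γ :=
    { toFun := fun x => (f x.1.1 * g x.1.2)⁻¹ * φ x
      map_one' := by
        change (f 1 * g 1)⁻¹ * φ 1 = 1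
        simp
      map_mul' := by
        intro x y
        change (f (x.1.1 * y.1.1) * g (x.1.2 * y.1.2))⁻¹ * φ (x * y) = _
        have e1 := comm12 φ (hf1 y.1.1) (hz2 x)
        have e2 := comm12 φ (hz1 x) (hg1' y.1.2)
        have e3 := hcomm y.1.1 x.1.2
        rw [map_mul, map_mul, map_mul]
        generalize f x.1.1 = a at *
        generalize f y.1.1 = a' at *
        generalize g x.1.2 = b at *
        generalize g y.1.2 = b' at *
        have hx : φ x = a * b * ((a * b)⁻¹ * φ x) := by group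
        have hy : φ y = a' * b' * ((a' * b')⁻¹ * φ y) := by group
        generalize (a * b)⁻¹ * φ x = z at *
        generalize (a' * b')⁻¹ * φ y = z' at *
        rw [hx, hy]
        have e4 : z * (a' * b') = a' * b' * z := by
          rw [← mul_assoc, ← e1, mul_assoc, e2, mul_assoc]
        calc (a * a' * (b * b'))⁻¹ * (a * b * z * (a' * b' * z'))
            = (a * a' * (b * b'))⁻¹ * (a * b * (z * (a' * b')) * z') := by group
          _ = (a * a' * (b * b'))⁻¹ * (a * b * (a' * b' * z) * z') := by rw [e4]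
          _ = (a * a' * (b * b'))⁻¹ * (a * (b * a') * b' * z * z') := by group
          _ = (a * a' * (b * b'))⁻¹ * (a * (a' * b) * b' * z * z') := by rw [e3]
          _ = z * z' := by group }
  have hζ := factor hQ (prQ p q) (prQ_surj hp hq) ζ (by
    intro x hx
    obtain ⟨a, _, b, _, hab, ha, hb⟩ := over_one φ x hx
    change (f x.1.1 * g x.1.2)⁻¹ * φ x = 1
    rw [hf2 x.1.1 hx, hg2' x.1.2 ((feq x).symm.trans hx), hab, ← ha, ← hb, inv_mul_cancel])
  refine ⟨f, g, hcomm, ?_, fun a => hf1 a, fun b => hg1' b⟩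
  intro x
  have h := hζ x
  change (f x.1.1 * g x.1.2)⁻¹ * φ x = 1 at h
  rw [inv_mul_eq_one] at h
  exact h.symm

end ProfArtin
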