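import Pool.Agent.Work.MP_f6e909_al.GP.Struct
import Pool.Agent.Work.MP_f6e909_al.GP.SupQ
import Pool.Agent.Work.MP_f6e909_al.GP.Ext0

/-!
# Homomorphisms of `PP` to finite groups extend to the Artin group (module ExtW, size M-L)



Let `A = ⟨X⟩`, `B = ⟨Y⟩` (as groups), `p : A → QQ`, `a ↦ piQ (ρ a).1`, `q : B → QQ`,
`b ↦ piQ (ρ b).2` (onto by `gx_surj`), `m : fib p q → PP`, `(a, b) ↦ a * b` (a homomorphism by
`gx_comm`, with values in `P0`). Apply `ext0` to `φ = θ ∘ m`: homomorphisms `f : A → Γ`,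
`g : B → Γ`. Define `Θ` on the generators: `Θ (gen x) = f (gen x)` for `x ∈ X`,
`Θ (gen y) = g (gen y)` for `y ∈ Y`, `Θ (gen w) = θ (gen w)` for the other ones. The relations
(`art_lift`):

* `x, x' ∈ X`: both sides are values of `f` (`map_alt'`); the same for `Y`;
* `x ∈ X, y ∈ Y`: `M x y = 2` and the images commute by `ext0`;
* `w, w'` outside: values of `θ`;
* `w` outside, `z ∈ X ∪ Y`. If all labels of `w` with `X ∪ Y` are `0` nothing is to prove. Suppose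
  `w` commutes with `X` and has even labels with `Y` (the other case is symmetric).
  - `x ∈ X`: `f (gen x) = φ (r, 1) = θ r` with `r ∈ ⟨X⟩`, `p r = 1`; the element `gen w` commutes
    with `⟨X⟩`, so `θ r` and `θ (gen w)` commute, and `M w x = 2`.
  - `y ∈ Y`, `M w y = m ≠ 0` even: choose `u ∈ ⟨X⟩` with `p u = q (gen y)`, so
    `φ (u, gen y) = f u * g (gen y)`, and `r ∈ ⟨X⟩` with `p r = 1`, `f u = φ (r, 1) = θ r`. Then
    `g (gen y) = θ (r⁻¹ * u * gen y)`. The element `e = r⁻¹ * u ∈ ⟨X⟩` commutes with `gen w` and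
    with `gen y`, so by `alt_mul_central` and `art_rel` the elements `e * gen y` and `gen w` of
    `PP` satisfy the relation of length `m` (in the Artin group, hence in the subgroup `PP`);
    apply `θ`.

Finally `Θ = θ` on `PP`: it suffices to check it on the generators of `PP` (`Subgroup.closure`):
clear for the `gen w`; for `a * b ∈ P0`: `Θ a = f a` on `⟨X⟩`, `Θ b = g b` on `⟨Y⟩`, so
`Θ (a * b) = f a * g b = φ (a, b) = θ (a * b)`.
-/

namespace ProfArtin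

variable {S : Type} {M : CoxeterMatrix S} {X Y : Set S} {c d : S → Fin 2}
  {ρ : ArtinGroup M →* F2 × F2}

/-- the first projection, on `⟨X⟩` -/
private def ewp (M : CoxeterMatrix S) (X : Set S) (ρ : ArtinGroup M →* F2 × F2) : GX M X →* QQ :=
  (piQ.comp ((MonoidHom.fst F2 F2).comp ρ)).comp (GX M X).subtype

/-- the second projection, on `⟨Y⟩` -/
private def ewq (M : CoxeterMatrix S) (Y : Set S) (ρ : ArtinGroup M →* F2 × F2) : GX M Y →* QQ :=
  (piQ.comp ((MonoidHom.snd F2 F2).comp ρ)).comp (GX M Y).subtype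

private theorem ew_mem (ρ : ArtinGroup M →* F2 × F2) (x : fib (ewp M X ρ) (ewq M Y ρ)) :
    (x.1.1 : ArtinGroup M) * (x.1.2 : ArtinGroup M) ∈ PP M X Y ρ :=
  Subgroup.subset_closure (Or.inl ⟨x.1.1, x.1.1.2, x.1.2, x.1.2.2, x.2, rfl⟩)

/-- the product map -/
private def ewm (h : Sq M X Y c d) (ρ : ArtinGroup M →* F2 × F2) :
    fib (ewp M X ρ) (ewq M Y ρ) →* PP M X Y ρ :=
  ((MonoidHom.noncommCoprod (GX M X).subtype (GX M Y).subtype
    (fun a b => gx_comm h a.1 a.2 b.1 b.2)).comp (fib (ewp M X ρ) (ewq M Y ρ)).subtype).codRestrict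
      _ (ew_mem ρ)

private theorem ewm_val (h : Sq M X Y c d) (ρ : ArtinGroup M →* F2 × F2)
    (x : fib (ewp M X ρ) (ewq M Y ρ)) :
    (ewm h ρ x : ArtinGroup M) = (x.1.1 : ArtinGroup M) * (x.1.2 : ArtinGroup M) := rfl

/-- an element commuting with generators commutes with the subgroup -/
private theorem ew_comm (w : ArtinGroup M) (X : Set S)
    (hw : ∀ x ∈ X, w * gen M x = gen M x * w) : ∀ a ∈ GX M X, w * a = a * w := by
  have h1 : GX M X ≤ Subgroup.centralizer {w} := by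
    refine (Subgroup.closure_le _).2 ?_
    rintro _ ⟨x, hx, rfl⟩
    refine Subgroup.mem_centralizer_iff.2 ?_
    rintro _ rfl
    exact hw x hx
  intro a ha
  exact Subgroup.mem_centralizer_iff.1 (h1 ha) w rfl

private theorem ew_commute {w : S} (X : Set S) (hwX : w ∉ X) (hw : ∀ x ∈ X, M w x = 2) :
    ∀ a ∈ GX M X, gen M w * a = a * gen M w := by
  refine ew_comm _ _ fun x hx => ?_
  have hne : w ≠ x := by
    rintro rfl
    exact hwX hx
  have h2 := art_rel M hne (by rw [hw x hx]; norm_num)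
  rwa [hw x hx, alt_two, alt_two] at h2

/-- two homomorphisms which agree on generators -/
private theorem ew_agree {Γ : Type} [Group Γ] (X : Set S) (Θ : ArtinGroup M →* Γ)
    (f : GX M X →* Γ)
    (hf : ∀ x (hx : x ∈ X), Θ (gen M x) = f ⟨gen M x, Subgroup.subset_closure ⟨x, hx, rfl⟩⟩)
    (a : ArtinGroup M) (ha : a ∈ GX M X) : Θ a = f ⟨a, ha⟩ := by
  induction ha using Subgroup.closure_induction with
  | mem a ha =>
    obtain ⟨x, hx, rfl⟩ := ha
    exact hf x hx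
  | one => rw [map_one]; exact (map_one f).symm
  | mul a b ha hb iha ihb =>
    rw [map_mul, iha, ihb, ← map_mul]
    rfl
  | inv a ha iha =>
    rw [map_inv, iha, ← map_inv]
    rfl

/-- the relation in `PP` from the relation in the group -/
private theorem ew_rel {G Γ : Type} [Group G] [Group Γ] (P : Subgroup G) (θ : P →* Γ) (a b : P)
    (m : ℕ) (h : alt (a : G) (b : G) m = alt (b : G) (a : G) m) :
    alt (θ a) (θ b) m = alt (θ b) (θ a) m := by
  have h1 : alt a b m = alt b a m := by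
    apply P.subtype_injective
    rw [map_alt', map_alt']
    exact h
  rw [← map_alt', ← map_alt', h1]

theorem ext_w (h : Sq M X Y c d) (hρ : IsRho M X Y c d ρ) {Γ : Type} [Group Γ] [Finite Γ]
    (θ : PP M X Y ρ →* Γ) :
    ∃ Θ : ArtinGroup M →* Γ, ∀ p : PP M X Y ρ, Θ p.1 = θ p := by
  classical
  have hp : Function.Surjective (ewp M X ρ) := fun x => by
    obtain ⟨a, ha, hax⟩ := (gx_surj h hρ).1 x
    exact ⟨⟨a, ha⟩, hax⟩
  have hq : Function.Surjective (ewq M Y ρ) := fun x => by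
    obtain ⟨a, ha, hax⟩ := (gx_surj h hρ).2 x
    exact ⟨⟨a, ha⟩, hax⟩
  obtain ⟨f, g, hfg, hφ, hf, hg⟩ := ext0 super_QQ (ewp M X ρ) (ewq M Y ρ) hp hq
    (θ.comp (ewm h ρ))
  have fX1 : ∀ a, ∃ y : fib (ewp M X ρ) (ewq M Y ρ), y.1.2 = 1 ∧ f a = θ (ewm h ρ y) := by
    intro a
    obtain ⟨r, hr, hfa⟩ := hf a
    exact ⟨_, rfl, hfa⟩
  have fY1 : ∀ b, ∃ y : fib (ewp M X ρ) (ewq M Y ρ), y.1.1 = 1 ∧ g b = θ (ewm h ρ y) := by
    intro b
    obtain ⟨r, hr, hgb⟩ := hg b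
    exact ⟨_, rfl, hgb⟩
  have fX2 : ∀ a, ∃ y : fib (ewp M X ρ) (ewq M Y ρ), y.1.1 = a ∧ f a = θ (ewm h ρ y) := by
    intro a
    obtain ⟨u, hu⟩ := hq (ewp M X ρ a)
    obtain ⟨z, hz1, hz⟩ := fY1 u
    refine ⟨(⟨(a, u), hu.symm⟩ : fib (ewp M X ρ) (ewq M Y ρ)) * z⁻¹, ?_, ?_⟩
    · show a * z.1.1⁻¹ = a
      rw [hz1, inv_one, mul_one]
    · have h1 : θ (ewm h ρ ⟨(a, u), hu.symm⟩) = f a * g u := hφ ⟨(a, u), hu.symm⟩
      rw [map_mul, map_mul, h1, map_inv, map_inv, ← hz, mul_inv_cancel_right]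
  have fY2 : ∀ b, ∃ y : fib (ewp M X ρ) (ewq M Y ρ), y.1.2 = b ∧ g b = θ (ewm h ρ y) := by
    intro b
    obtain ⟨u, hu⟩ := hp (ewq M Y ρ b)
    obtain ⟨z, hz1, hz⟩ := fX1 u
    refine ⟨z⁻¹ * (⟨(u, b), hu⟩ : fib (ewp M X ρ) (ewq M Y ρ)), ?_, ?_⟩
    · show z.1.2⁻¹ * b = b
      rw [hz1, inv_one, one_mul]
    · have h1 : θ (ewm h ρ ⟨(u, b), hu⟩) = f u * g b := hφ ⟨(u, b), hu⟩
      rw [map_mul, map_mul, h1, map_inv, map_inv, ← hz, inv_mul_cancel_left]
  have hgX : ∀ x ∈ X, gen M x ∈ GX M X := fun x hx => Subgroup.subset_closure ⟨x, hx, rfl⟩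
  have hgY : ∀ x ∈ Y, gen M x ∈ GX M Y := fun x hx => Subgroup.subset_closure ⟨x, hx, rfl⟩
  have hgW : ∀ w, w ∉ X → w ∉ Y → gen M w ∈ PP M X Y ρ := fun w h1 h2 =>
    Subgroup.subset_closure (Or.inr ⟨w, ⟨h1, h2⟩, rfl⟩)
  obtain ⟨F, FX, FY, FW⟩ : ∃ F : S → Γ, (∀ x (hx : x ∈ X), F x = f ⟨gen M x, hgX x hx⟩) ∧
      (∀ x (hx : x ∈ Y), F x = g ⟨gen M x, hgY x hx⟩) ∧
      (∀ x (h1 : x ∉ X) (h2 : x ∉ Y), F x = θ ⟨gen M x, hgW x h1 h2⟩) := by
    refine ⟨fun s => if h1 : s ∈ X then f ⟨gen M s, hgX s h1⟩ else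
      if h2 : s ∈ Y then g ⟨gen M s, hgY s h2⟩ else θ ⟨gen M s, hgW s h1 h2⟩, ?_, ?_, ?_⟩
    · intro x hx
      exact dif_pos hx
    · intro x hx
      have h1 : x ∉ X := fun h1 => sq_disjoint h x h1 hx
      simp only [dif_neg h1, dif_pos hx]
    · intro x h1 h2
      simp only [dif_neg h1, dif_neg h2]
  -- the relations
  have relXX : ∀ s ∈ X, ∀ t ∈ X, s ≠ t → M s t ≠ 0 →
      alt (F s) (F t) (M s t) = alt (F t) (F s) (M s t) := by
    intro s hs t ht hst h0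
    rw [FX s hs, FX t ht]
    exact ew_rel _ f _ _ _ (art_rel M hst h0)
  have relYY : ∀ s ∈ Y, ∀ t ∈ Y, s ≠ t → M s t ≠ 0 →
      alt (F s) (F t) (M s t) = alt (F t) (F s) (M s t) := by
    intro s hs t ht hst h0
    rw [FY s hs, FY t ht]
    exact ew_rel _ g _ _ _ (art_rel M hst h0)
  have relXY : ∀ s ∈ X, ∀ t ∈ Y, alt (F s) (F t) (M s t) = alt (F t) (F s) (M s t) := by
    intro s hs t ht
    rw [h.XY s hs t ht, alt_two, alt_two, FX s hs, FY t ht]
    exact hfg _ _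
  have relWW : ∀ s, s ∉ X → s ∉ Y → ∀ t, t ∉ X → t ∉ Y → s ≠ t → M s t ≠ 0 →
      alt (F s) (F t) (M s t) = alt (F t) (F s) (M s t) := by
    intro s h1 h2 t h3 h4 hst h0
    rw [FW s h1 h2, FW t h3 h4]
    exact ew_rel _ θ _ _ _ (art_rel M hst h0)
  have relXW : ∀ s ∈ X, ∀ w, w ∉ X → w ∉ Y → M s w ≠ 0 →
      alt (F s) (F w) (M s w) = alt (F w) (F s) (M s w) := by
    intro s hs w h1 h2 h0
    have hne : s ≠ w := by
      rintro rfl
      exact h1 hs
    have hsym : M s w = M w s := M.symmetric s w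
    rcases h.W w h1 h2 with h3 | ⟨h3, -⟩ | ⟨h3, h4⟩
    · exact absurd (hsym.trans (h3 s (Or.inl hs))) h0
    · obtain ⟨y, hy1, hy⟩ := fX1 ⟨gen M s, hgX s hs⟩
      have hc := ew_commute X h1 h3 y.1.1 y.1.1.2
      rw [FX s hs, FW w h1 h2, hy]
      refine ew_rel _ θ _ _ _ ?_
      rw [hsym, h3 s hs, alt_two, alt_two, ewm_val, hy1]
      show (y.1.1 : ArtinGroup M) * 1 * gen M w = gen M w * (y.1.1 * 1)
      rw [mul_one, hc]
    · obtain ⟨y, hy1, hy⟩ := fX2 ⟨gen M s, hgX s hs⟩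
      have hc := ew_commute Y h2 h3 y.1.2 y.1.2.2
      have hcs := gx_comm h (gen M s) (hgX s hs) y.1.2 y.1.2.2
      rw [FX s hs, FW w h1 h2, hy]
      refine ew_rel _ θ _ _ _ ?_
      have e : (ewm h ρ y : ArtinGroup M) = (y.1.2 : ArtinGroup M) * gen M s := by
        rw [ewm_val, hy1]
        exact hcs
      rw [e]
      exact alt_mul_central _ _ _ _ (by rw [hsym]; exact h4 s hs) hcs.symm hc.symm
        (art_rel M hne h0)
  have relYW : ∀ s ∈ Y, ∀ w, w ∉ X → w ∉ Y → M s w ≠ 0 →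
      alt (F s) (F w) (M s w) = alt (F w) (F s) (M s w) := by
    intro s hs w h1 h2 h0
    have hne : s ≠ w := by
      rintro rfl
      exact h2 hs
    have hsym : M s w = M w s := M.symmetric s w
    rcases h.W w h1 h2 with h3 | ⟨h3, h4⟩ | ⟨h3, -⟩
    · exact absurd (hsym.trans (h3 s (Or.inr hs))) h0
    · obtain ⟨y, hy1, hy⟩ := fY2 ⟨gen M s, hgY s hs⟩
      have hc := ew_commute X h1 h3 y.1.1 y.1.1.2
      have hcs := gx_comm h y.1.1 y.1.1.2 (gen M s) (hgY s hs)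
      rw [FY s hs, FW w h1 h2, hy]
      refine ew_rel _ θ _ _ _ ?_
      have e : (ewm h ρ y : ArtinGroup M) = (y.1.1 : ArtinGroup M) * gen M s := by
        rw [ewm_val, hy1]
      rw [e]
      exact alt_mul_central _ _ _ _ (by rw [hsym]; exact h4 s hs) hcs hc.symm
        (art_rel M hne h0)
    · obtain ⟨y, hy1, hy⟩ := fY1 ⟨gen M s, hgY s hs⟩
      have hc := ew_commute Y h2 h3 y.1.2 y.1.2.2
      rw [FY s hs, FW w h1 h2, hy]
      refine ew_rel _ θ _ _ _ ?_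
      rw [hsym, h3 s hs, alt_two, alt_two, ewm_val, hy1]
      show (1 : ArtinGroup M) * y.1.2 * gen M w = gen M w * (1 * y.1.2)
      rw [one_mul, hc]
  have hrel : ∀ s t, s ≠ t → M s t ≠ 0 →
      alt (F s) (F t) (M s t) = alt (F t) (F s) (M s t) := by
    intro s t hst h0
    have hsym : M s t = M t s := M.symmetric s t
    have h0' : M t s ≠ 0 := by
      rw [← hsym]
      exact h0
    by_cases sX : s ∈ X
    · by_cases tX : t ∈ X
      · exact relXX s sX t tX hst h0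
      · by_cases tY : t ∈ Y
        · exact relXY s sX t tY
        · exact relXW s sX t tX tY h0
    · by_cases sY : s ∈ Y
      · by_cases tX : t ∈ X
        · rw [hsym]
          exact (relXY t tX s sY).symm
        · by_cases tY : t ∈ Y
          · exact relYY s sY t tY hst h0
          · exact relYW s sY t tX tY h0
      · by_cases tX : t ∈ X
        · rw [hsym]
          exact (relXW t tX s sX sY h0').symm
        · by_cases tY : t ∈ Y
          · rw [hsym]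
            exact (relYW t tY s sX sY h0').symm
          · exact relWW s sX sY t tX tY hst h0
  obtain ⟨Θ, hΘ⟩ := art_lift M F hrel
  refine ⟨Θ, ?_⟩
  have hle : PP M X Y ρ ≤ ((Θ.comp (PP M X Y ρ).subtype).eqLocus θ).map (PP M X Y ρ).subtype := by
    conv_lhs => rw [PP]
    rw [Subgroup.closure_le]
    rintro t (ht | ⟨w, ⟨h1, h2⟩, rfl⟩)
    · obtain ⟨a, ha, b, hb, hab, rfl⟩ := ht
      refine ⟨⟨a * b, Subgroup.subset_closure (Or.inl ⟨a, ha, b, hb, hab, rfl⟩)⟩, ?_, rfl⟩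
      show Θ (a * b) = θ ⟨a * b, _⟩
      have e1 : Θ a = f ⟨a, ha⟩ := ew_agree X Θ f (fun x hx => by rw [hΘ, FX x hx]) a ha
      have e2 : Θ b = g ⟨b, hb⟩ := ew_agree Y Θ g (fun x hx => by rw [hΘ, FY x hx]) b hb
      rw [map_mul, e1, e2]
      exact (hφ ⟨(⟨a, ha⟩, ⟨b, hb⟩), hab⟩).symm
    · refine ⟨⟨gen M w, hgW w h1 h2⟩, ?_, rfl⟩
      show Θ (gen M w) = θ ⟨gen M w, _⟩
      rw [hΘ, FW w h1 h2]
  intro p
  obtain ⟨y, hy, hyp⟩ := hle p.2
  have e : y = p := Subtype.ext hyp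
  rw [← e]
  exact hy

end ProfArtin
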