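import Mathlib

/-!
# Kernels of maps onto finitely presented groups (module FpKer, size S-M)

Proof. Let `φ : FreeGroup (Fin n) → L` be onto with kernel `normalClosure S`, `S` finite. Choose
`ψ : FreeGroup (Fin n) → K` with `f ∘ ψ = φ` (`FreeGroup.lift` of preimages). Let `T` be a finite
generating set of `K` and for `k ∈ T` choose `w k` with `φ (w k) = f k`. Put
`N = normalClosure (ψ '' S ∪ {k⁻¹ * ψ (w k) | k ∈ T})`. Clearly `N ≤ ker f`. Conversely
`N ⊔ ψ.range` contains `T`, hence is everything, so every element of `K` is `n * ψ w` with `n ∈ N`;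
if `f (n * ψ w) = 1` then `φ w = 1`, so `w ∈ normalClosure S`, and `ψ` maps `normalClosure S` into
`N` (because `N.comap ψ` is normal and contains `S`).
-/

namespace ProfArtin

theorem fp_ker {K L : Type} [Group K] [Group L] [Group.FG K] [hL : Group.IsFinitelyPresented L]
    (f : K →* L) (hf : Function.Surjective f) : f.ker.IsFinitelyNormallyGenerated := by
  obtain ⟨n, φ, hφ, S, hS, hSφ⟩ := hL.out
  obtain ⟨T, hT, hTf⟩ := Group.fg_iff.1 (inferInstance : Group.FG K)
  choose g hg using fun i : Fin n => hf (φ (FreeGroup.of i))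
  choose w hw using fun k : K => hφ (f k)
  let ψ : FreeGroup (Fin n) →* K := FreeGroup.lift g
  have hψ : f.comp ψ = φ := by
    refine FreeGroup.ext_hom _ _ fun i => ?_
    rw [MonoidHom.comp_apply]
    show f (FreeGroup.lift g (FreeGroup.of i)) = _
    rw [FreeGroup.lift_apply_of, hg]
  have hψ' : ∀ u, f (ψ u) = φ u := fun u => DFunLike.congr_fun hψ u
  let N : Subgroup K := Subgroup.normalClosure (ψ '' S ∪ (fun k => k⁻¹ * ψ (w k)) '' T)
  refine ⟨ψ '' S ∪ (fun k => k⁻¹ * ψ (w k)) '' T, (hS.image _).union (hTf.image _), ?_⟩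
  show N = f.ker
  have hle : N ≤ f.ker := by
    refine Subgroup.normalClosure_le_normal ?_
    rintro _ (⟨u, hu, rfl⟩ | ⟨k, -, rfl⟩)
    · show f (ψ u) = 1
      rw [hψ']
      have : u ∈ φ.ker := by
        rw [← hSφ]
        exact Subgroup.subset_normalClosure hu
      exact this
    · show f (k⁻¹ * ψ (w k)) = 1
      rw [map_mul, map_inv, hψ', hw, inv_mul_cancel]
  refine le_antisymm hle fun k hk => ?_
  have htop : ((QuotientGroup.mk' N).comp ψ).range.comap (QuotientGroup.mk' N) = ⊤ := by
    rw [eq_top_iff, ← hT, Subgroup.closure_le]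
    intro k hk
    show QuotientGroup.mk' N k ∈ ((QuotientGroup.mk' N).comp ψ).range
    refine ⟨w k, ?_⟩
    show QuotientGroup.mk' N (ψ (w k)) = QuotientGroup.mk' N k
    symm
    exact QuotientGroup.eq.2 (Subgroup.subset_normalClosure (Or.inr ⟨k, hk, rfl⟩))
  have hk' : k ∈ ((QuotientGroup.mk' N).comp ψ).range.comap (QuotientGroup.mk' N) := by
    rw [htop]; trivial
  obtain ⟨u, hu⟩ := hk'
  have h1 : k⁻¹ * ψ u ∈ N := QuotientGroup.eq.1 (show QuotientGroup.mk' N k = _ from hu.symm)
  have h2 : φ u = 1 := by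
    have := hle h1
    rw [MonoidHom.mem_ker, map_mul, map_inv, hψ', MonoidHom.mem_ker.1 hk, inv_one, one_mul] at this
    exact this
  have h3 : ψ u ∈ N := by
    have h4 : u ∈ Subgroup.normalClosure S := by
      rw [hSφ]
      exact h2
    have h5 : Subgroup.normalClosure S ≤ N.comap ψ :=
      Subgroup.normalClosure_le_normal fun v hv =>
        Subgroup.subset_normalClosure (Or.inl ⟨v, hv, rfl⟩)
    exact h5 h4
  have h6 : k = ψ u * (k⁻¹ * ψ u)⁻¹ := by group
  rw [h6]
  exact N.mul_mem h3 (N.inv_mem h1)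

/-- a retract of a finitely presented group is finitely presented
(the kernel of `r` is the normal closure of the elements `g⁻¹ * s (r g)`, `g` in a finite
generating set: modulo their normal closure `N` every `g` equals `s (r g)`; or use `fp_ker` in a
suitable way together with `Group.IsFinitelyPresented.of_surjective`). -/
theorem fp_retract {P R : Type} [Group P] [Group R] [hP : Group.IsFinitelyPresented P]
    (r : P →* R) (s : R →* P) (h : ∀ x, r (s x) = x) : Group.IsFinitelyPresented R := by
  have hFG : Group.FG P := by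
    obtain ⟨n, φ, hφ, -⟩ := hP.out
    exact Group.fg_of_surjective hφ
  obtain ⟨T, hT, hTf⟩ := Group.fg_iff.1 hFG
  refine Group.IsFinitelyPresented.of_surjective r (fun x => ⟨s x, h x⟩)
    ⟨(fun g => g⁻¹ * s (r g)) '' T, hTf.image _, ?_⟩
  set N : Subgroup P := Subgroup.normalClosure ((fun g => g⁻¹ * s (r g)) '' T) with hN
  apply le_antisymm
  · refine Subgroup.normalClosure_le_normal ?_
    rintro _ ⟨g, -, rfl⟩
    show r (g⁻¹ * s (r g)) = 1
    rw [map_mul, map_inv, h, inv_mul_cancel]
  · intro g hg
    have heq : QuotientGroup.mk' N = (QuotientGroup.mk' N).comp (s.comp r) := by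
      refine MonoidHom.eq_of_eqOn_dense hT ?_
      intro g hg
      exact QuotientGroup.eq.2 (Subgroup.subset_normalClosure ⟨g, hg, rfl⟩)
    have h1 : QuotientGroup.mk' N g = QuotientGroup.mk' N (s (r g)) := DFunLike.congr_fun heq g
    rw [MonoidHom.mem_ker.1 hg, map_one, map_one] at h1
    exact (QuotientGroup.eq_one_iff g).1 h1

end ProfArtin
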