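import Pool.Agent.Work.MP_f6e909_al.GP.Defs
import Pool.Agent.Work.MP_f6e909_al.GP.FpKer

/-!
# Fibre products over finitely presented groups (module FibFg, size M)



Proof. By `fp_ker` the kernel of `q` is the normal closure of a finite set `{r_j}`. Let `u_k`
generate `A`, `v_l` generate `B` (finite sets). Choose `v'_k ∈ B` with `q v'_k = p u_k` and
`u'_l ∈ A` with `p u'_l = q v_l`. The fibre product is generated by `(u_k, v'_k)`, `(u'_l, v_l)`,
`(1, r_j)`: let `D` be the subgroup generated by them. Given `(u, v)` in the fibre product there is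
an element of `D` with first component `u`, so we may assume `u = 1`, `q v = 1`. The set of all
`r` with `(1, r) ∈ D` is a subgroup of `B`, contains the `r_j`, and is normal in `B`: for `v : B`
there is `u` with `(u, v) ∈ D` and `(u, v) (1, r) (u, v)⁻¹ = (1, v r v⁻¹)`. So it contains
`ker q`.
-/

namespace ProfArtin

theorem fib_fg {A B Q : Type} [Group A] [Group B] [Group Q] [Group.FG A] [Group.FG B]
    [Group.IsFinitelyPresented Q] (p : A →* Q) (q : B →* Q) (hp : Function.Surjective p)
    (hq : Function.Surjective q) : Group.FG (fib p q) := by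
  obtain ⟨R, hR, hRq⟩ := fp_ker q hq
  obtain ⟨UA, hUA, hUAf⟩ := Group.fg_iff.1 (inferInstance : Group.FG A)
  obtain ⟨VB, hVB, hVBf⟩ := Group.fg_iff.1 (inferInstance : Group.FG B)
  choose β hβ using fun a : A => hq (p a)
  choose α hα using fun b : B => hp (q b)
  rw [Group.fg_iff_subgroup_fg, Subgroup.fg_iff]
  set S : Set (A × B) := (fun u => (u, β u)) '' UA ∪ (fun v => (α v, v)) '' VB ∪
    (fun r => ((1 : A), r)) '' R with hS
  refine ⟨S, ?_, ((hUAf.image _).union (hVBf.image _)).union (hR.image _)⟩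
  set D := Subgroup.closure S with hD
  have hle : D ≤ fib p q := by
    rw [hD, Subgroup.closure_le]
    rintro _ ((⟨u, -, rfl⟩ | ⟨v, -, rfl⟩) | ⟨r, hr, rfl⟩)
    · exact (hβ u).symm
    · exact hα v
    · have h1 : q r = 1 := by
        have : r ∈ q.ker := by
          rw [← hRq]
          exact Subgroup.subset_normalClosure hr
        exact this
      show p 1 = q r
      rw [h1, map_one]
  apply le_antisymm hle
  have h1 : ∀ a : A, ∃ b, (a, b) ∈ D := by
    have htop : D.map (MonoidHom.fst A B) = ⊤ := by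
      rw [eq_top_iff, ← hUA, Subgroup.closure_le]
      intro u hu
      exact ⟨(u, β u), Subgroup.subset_closure (Or.inl (Or.inl ⟨u, hu, rfl⟩)), rfl⟩
    intro a
    have : a ∈ D.map (MonoidHom.fst A B) := by rw [htop]; trivial
    obtain ⟨⟨a', b⟩, hab, rfl⟩ := this
    exact ⟨b, hab⟩
  have h2 : ∀ b : B, ∃ a, (a, b) ∈ D := by
    have htop : D.map (MonoidHom.snd A B) = ⊤ := by
      rw [eq_top_iff, ← hVB, Subgroup.closure_le]
      intro u hu
      exact ⟨(α u, u), Subgroup.subset_closure (Or.inl (Or.inr ⟨u, hu, rfl⟩)), rfl⟩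
    intro b
    have : b ∈ D.map (MonoidHom.snd A B) := by rw [htop]; trivial
    obtain ⟨⟨a, b'⟩, hab, rfl⟩ := this
    exact ⟨a, hab⟩
  have h3 : (D.comap (MonoidHom.inr A B)).Normal := by
    constructor
    intro r hr v
    obtain ⟨u, hu⟩ := h2 v
    have hr' : ((1 : A), r) ∈ D := hr
    show ((1 : A), v * r * v⁻¹) ∈ D
    have h4 : ((1 : A), v * r * v⁻¹) = (u, v) * (1, r) * (u, v)⁻¹ := by
      ext <;> simp
    rw [h4]
    exact D.mul_mem (D.mul_mem hu hr') (D.inv_mem hu)
  have h4 : q.ker ≤ D.comap (MonoidHom.inr A B) := by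
    rw [← hRq]
    exact Subgroup.normalClosure_le_normal fun r hr =>
      (Subgroup.subset_closure (Or.inr ⟨r, hr, rfl⟩) : ((1 : A), r) ∈ D)
  rintro ⟨u, v⟩ huv
  obtain ⟨b, hb⟩ := h1 u
  have h5 : p u = q b := hle hb
  have h6 : p u = q v := huv
  have h7 : ((1 : A), b⁻¹ * v) ∈ D := h4 (by
    show q (b⁻¹ * v) = 1
    rw [map_mul, map_inv, ← h5, ← h6, inv_mul_cancel])
  have h8 : (u, v) = (u, b) * (1, b⁻¹ * v) := by
    ext <;> simp
  rw [h8]
  exact D.mul_mem hb h7

end ProfArtin
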