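import Pool.Agent.Work.MP_f6e909_al.GP.Nfp
import Pool.Agent.Work.MP_f6e909_al.GP.Der
import Pool.Agent.Work.MP_f6e909_al.GP.Amal

/-!
# The fibre product `F₂ ×_QQ F₂` is not finitely presented (module NfpQ, size S-M)



Proof. Take `K`, `f`, `L` from `amal_main`, `ρ = f.comp piQ`, `d` from `der_exists`,
`r = bg aF tF`, `X = {ρ (gF i * sF ^ e) | i : Fin 5, e ≤ 1}`. By `der_rel`, `d r` is supported in
`X` and the sum of its coefficients is `2 * (-1 - 1 + 1 + 1 - 1) = -2` (the sum of coefficients is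
additive). For `N` take `g = aF ^ 2 * (sF * aF ^ 2) ^ (N + 1)`, `n = N + 2`. Apply `nfp`.
-/

namespace ProfArtin

theorem not_fp_fib : ¬ Group.IsFinitelyPresented (fib piQ piQ) := by
  classical
  obtain ⟨K, hK, f, L, hL⟩ := amal_main
  obtain ⟨d, hd, hs, ht⟩ := der_exists (f.comp piQ)
  have hr : piQ (bg aF tF) = 1 :=
    (QuotientGroup.eq_one_iff _).2 (Subgroup.subset_normalClosure (Or.inl rfl))
  have hrel := der_rel (f.comp piQ) (by
    rw [MonoidHom.comp_apply, hr, map_one]) d hd hs ht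
  refine nfp piQ f L d hd (bg aF tF) hr
    {x | ∃ i : Fin 5, ∃ e : ℕ, e ≤ 1 ∧ x = f (piQ (gF i * sF ^ e))} ?_ ?_ ?_
  · intro x hx
    by_contra hcon
    apply hx
    rw [hrel, Finsupp.finsetSum_apply]
    refine Finset.sum_eq_zero fun i _ => ?_
    have h1 : (f.comp piQ) (gF i) ≠ x := by
      rintro rfl
      exact hcon ⟨i, 0, by norm_num, by rw [pow_zero, mul_one]; rfl⟩
    have h2 : (f.comp piQ) (gF i * sF) ≠ x := by
      rintro rfl
      exact hcon ⟨i, 1, le_rfl, by rw [pow_one]; rfl⟩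
    rw [Finsupp.smul_apply, Finsupp.add_apply, Finsupp.single_apply, Finsupp.single_apply,
      if_neg h1, if_neg h2, add_zero, smul_zero]
  · have hsum : ∀ v : K →₀ ℤ, (v.sum fun _ m => m) =
        Finsupp.linearCombination ℤ (fun _ : K => (1 : ℤ)) v := by
      intro v
      rw [Finsupp.linearCombination_apply]
      exact Finsupp.sum_congr fun x _ => (mul_one _).symm
    rw [hsum, hrel, map_sum]
    simp only [map_smul, map_add, Finsupp.linearCombination_single, Fin.sum_univ_five, eF]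
    norm_num [Matrix.cons_val_zero, Matrix.cons_val_one]
    decide
  · intro N
    refine ⟨aF ^ 2 * (sF * aF ^ 2) ^ (N + 1), N + 2, by omega, ?_⟩
    rintro _ ⟨i, e, he, rfl⟩ _ ⟨j, e', he', rfl⟩
    exact hL (N + 1) (by omega) i j e e' he he'

end ProfArtin
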