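import Pool.Agent.Work.MP_f6e909_al.GP.Dens
import Pool.Agent.Work.MP_f6e909_al.GP.ExtW
import Pool.Agent.Work.MP_f6e909_al.GP.NfpQ
import Pool.Agent.Work.MP_f6e909_al.CompIso

/-!
# Assembly (module Final, size M)



`gp_completion`: the profinite completions of `PP` and of the Artin group are isomorphic. Use
`completion_iso` (file `CompIso`) with `G := PP`, `H := ArtinGroup M`, `θ K` the restriction of
`QuotientGroup.mk' K` to `PP`: it is onto by `dens`, compatible trivially, and cofinal by `ext_w`:
for `V` normal of finite index in `PP` extend `PP → PP / V` to `Θ : ArtinGroup M → PP / V` and take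
`K = Θ.ker` (finite index since the target is finite); compare the proof of `tw_completion` in
`TwComp.lean`.

`gp_main`: Suppose `ArtinGroup M` is profinitely rigid. It is finitely presented (`S` finite: the
relators form a finite set, being the image of a subset of `S × S`). `PP` is finitely generated
(`pp_fg`) and residually finite (a subgroup of a residually finite group). So `PP` is isomorphic to
`ArtinGroup M`, hence finitely presented, so its retract `fib piQ piQ` is finitely presented
(`pp_retract`, `fp_retract`), contradicting `not_fp_fib`.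
-/

namespace ProfArtin

variable {S : Type} {M : CoxeterMatrix S} {X Y : Set S} {c d : S → Fin 2}
  {ρ : ArtinGroup M →* F2 × F2}

theorem gp_completion (h : Sq M X Y c d) (hρ : IsRho M X Y c d ρ) :
    Nonempty (ProfiniteGrp.ProfiniteCompletion.completion (GrpCat.of (PP M X Y ρ)) ≃ₜ*
      ProfiniteGrp.ProfiniteCompletion.completion (GrpCat.of (ArtinGroup M))) := by
  have hfinK : ∀ K : FiniteIndexNormalSubgroup (ArtinGroup M),
      Finite (ArtinGroup M ⧸ K.toSubgroup) := fun K => inferInstance
  obtain ⟨e⟩ := completion_iso (G := PP M X Y ρ) (H := ArtinGroup M)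
    (fun K => (QuotientGroup.mk' K.toSubgroup).comp (PP M X Y ρ).subtype)
    (fun K x => by
      obtain ⟨g, rfl⟩ := QuotientGroup.mk'_surjective K.toSubgroup x
      obtain ⟨p, hp, hpg⟩ := dens h hρ (QuotientGroup.mk' K.toSubgroup) g
      exact ⟨⟨p, hp⟩, hpg⟩)
    (fun K K' hK g => rfl)
    (fun V => by
      obtain ⟨Θ, hΘ⟩ := ext_w h hρ (QuotientGroup.mk' V.toSubgroup)
      have hfin : Θ.ker.FiniteIndex := Subgroup.finiteIndex_ker Θ
      refine ⟨FiniteIndexNormalSubgroup.ofSubgroup Θ.ker, fun p hp => ?_⟩
      have h1 : p.1 ∈ Θ.ker := by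
        rw [MonoidHom.mem_ker, MonoidHom.comp_apply, QuotientGroup.mk'_apply,
          QuotientGroup.eq_one_iff] at hp
        exact hp
      rw [MonoidHom.mem_ker, hΘ, QuotientGroup.mk'_apply, QuotientGroup.eq_one_iff] at h1
      exact h1)
  exact ⟨e.symm⟩

private theorem fin_fp [Finite S] (M : CoxeterMatrix S) :
    Group.IsFinitelyPresented (ArtinGroup M) := by
  have hfin : (artinRels M).Finite := by
    refine (Set.finite_range fun st : S × S =>
      alt (FreeGroup.of st.1) (FreeGroup.of st.2) (M st.1 st.2) *
        (alt (FreeGroup.of st.2) (FreeGroup.of st.1) (M st.1 st.2))⁻¹).subset ?_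
    rintro r ⟨s, t, -, -, rfl⟩
    exact ⟨(s, t), rfl⟩
  have : Finite (artinRels M) := hfin.to_subtype
  infer_instance

theorem gp_main [Finite S] (M : CoxeterMatrix S) (X Y : Set S) (c d : S → Fin 2)
    (h : Sq M X Y c d) : ¬ ProfinitelyRigid (ArtinGroup M) := by
  rintro ⟨hrf, hrig⟩
  obtain ⟨ρ, hρ⟩ := rho_exists M X Y c d h
  obtain ⟨e⟩ := hrig (PP M X Y ρ) (pp_fg h hρ) inferInstance (gp_completion h hρ)
  have hfp : Group.IsFinitelyPresented (PP M X Y ρ) := by
    have := fin_fp M
    exact Group.IsFinitelyPresented.equiv e.symm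
  obtain ⟨r, s, hrs⟩ := pp_retract h hρ
  exact not_fp_fib (fp_retract r s hrs)

end ProfArtin
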