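import Pool.Agent.Work.MP_f6e909_al.GP.Defs

/-!
# A criterion for fibre products not to be finitely presented (module Nfp, size M)

Data: `f : Q → K`, a length function `L : K → ℕ`, a derivation `d : F → (K →₀ ℤ)` over `f ∘ p`.
`K` acts on `V = K →₀ ℤ` by left translation of the basis (`mapDomain (k * ·)`). Let
`β : V × V → (ℕ →₀ ℤ)` be the bilinear map with `β (single x 1, single y 1) = single (L (x⁻¹ y)) 1`;
it is invariant: `β (k v, k w) = β (v, w)`.

Let `H` be the set `V × V × (ℕ →₀ ℤ) × K` with the product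
`(v, w, c, k) (v', w', c', k') = (v + k v', w + k w', c + c' + β (v, k w'), k k')`. It is a group
(associativity by invariance of `β`), and `{(0, 0, c, 1)}` is central.

Suppose the fibre product is finitely presented: `φ : FreeGroup (Fin n) → fib p p` onto with kernel
the normal closure of a finite set `T`. Let `Ψ : FreeGroup (Fin n) → H` be the homomorphism with
`Ψ (of i) = (d u_i, d v_i, 0, f (p u_i))`, where `φ (of i) = (u_i, v_i)`. For all `w`, with
`φ w = (u, v)`, `Ψ w = (d u, d v, c w, f (p u))` for some `c w` (induction on `w`, or: the map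
`H → V ⋊ K` is a homomorphism). The elements `Ψ w`, `w ∈ T`, are `(0, 0, c w, 1)`; let `T'` be the
finite union of the supports of the `c w`, `w ∈ T`. The set of all `(0, 0, c, 1)` with `c` supported
in `T'` is a normal (central) subgroup of `H`, so its preimage under `Ψ` contains the kernel of
`φ`. Hence `c w` is supported in `T'` for all `w` in the kernel.

Take `N` larger than all elements of `T'`, and `g`, `n ≥ N` from `hL`. Choose `w₁`, `w₂` with
`φ w₁ = (r, 1)`, `φ w₂ = (1, g r g⁻¹)`. Their commutator is in the kernel of `φ`. Since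
`d (g r g⁻¹) = f (p g) · d r` (as `p r = 1`) and `d 1 = 0`, the commutator of `Ψ w₁` and `Ψ w₂` is
`(0, 0, β (d r, f (p g) · d r), 1)`. All values `L (x⁻¹ * f (p g) * y)`, `x`, `y ∈ X`, are `n`, so
`β (d r, f (p g) · d r) = (sum of the coefficients of d r) ^ 2 • single n 1`, which is not
supported in `T'`. Contradiction.

(`H` can be a structure with a `Group` instance, or a semidirect product; helper definitions may be
added to this file.)
-/

namespace ProfArtin

private noncomputable def actN {K : Type} [Group K] (k : K) : (K →₀ ℤ) →ₗ[ℤ] (K →₀ ℤ) :=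
  Finsupp.lmapDomain ℤ ℤ (fun x => k * x)

private theorem actN_one {K : Type} [Group K] (v : K →₀ ℤ) : actN 1 v = v := by
  show Finsupp.mapDomain (fun x => 1 * x) v = v
  have h : (fun x : K => 1 * x) = id := by
    funext x
    exact one_mul x
  rw [h, Finsupp.mapDomain_id]

private theorem actN_mul {K : Type} [Group K] (k l : K) (v : K →₀ ℤ) :
    actN (k * l) v = actN k (actN l v) := by
  show Finsupp.mapDomain (fun x => k * l * x) v =
    Finsupp.mapDomain (fun x => k * x) (Finsupp.mapDomain (fun x => l * x) v)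
  rw [← Finsupp.mapDomain_comp]
  congr 1
  funext x
  exact mul_assoc _ _ _

private noncomputable def bet {K : Type} [Group K] (L : K → ℕ) :
    (K →₀ ℤ) →ₗ[ℤ] (K →₀ ℤ) →ₗ[ℤ] (ℕ →₀ ℤ) :=
  Finsupp.linearCombination ℤ (fun x : K => Finsupp.lmapDomain ℤ ℤ (fun y => L (x⁻¹ * y)))

private theorem bet_apply {K : Type} [Group K] (L : K → ℕ) (v w : K →₀ ℤ) :
    bet L v w = v.sum fun x a => a • Finsupp.mapDomain (fun y => L (x⁻¹ * y)) w := by
  rw [bet, Finsupp.linearCombination_apply, Finsupp.sum, Finsupp.sum, LinearMap.sum_apply]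
  rfl

private theorem bet_act {K : Type} [Group K] (L : K → ℕ) (k : K) (v w : K →₀ ℤ) :
    bet L (actN k v) (actN k w) = bet L v w := by
  have h : (bet L).compl₁₂ (actN k) (actN k) = bet L := by
    refine Finsupp.lhom_ext fun x a => ?_
    refine LinearMap.ext fun w => ?_
    rw [LinearMap.compl₁₂_apply]
    have e : actN k (Finsupp.single x a) = Finsupp.single (k * x) a :=
      Finsupp.mapDomain_single
    rw [e, bet_apply, bet_apply, Finsupp.sum_single_index (by rw [zero_smul]),
      Finsupp.sum_single_index (by rw [zero_smul])]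
    congr 1
    show Finsupp.mapDomain (fun y => L ((k * x)⁻¹ * y)) (Finsupp.mapDomain (fun x => k * x) w) = _
    rw [← Finsupp.mapDomain_comp]
    congr 1
    funext y
    simp [mul_assoc]
  have h2 := LinearMap.congr_fun (LinearMap.congr_fun h v) w
  rwa [LinearMap.compl₁₂_apply] at h2

@[ext]
private structure HH (K : Type) (L : K → ℕ) where
  v : K →₀ ℤ
  w : K →₀ ℤ
  c : ℕ →₀ ℤ
  k : K

namespace HH

variable {K : Type} [Group K] {L : K → ℕ}

private noncomputable instance : Mul (HH K L) :=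
  ⟨fun x y => ⟨x.v + actN x.k y.v, x.w + actN x.k y.w, x.c + y.c + bet L x.v (actN x.k y.w),
    x.k * y.k⟩⟩
private noncomputable instance : One (HH K L) := ⟨⟨0, 0, 0, 1⟩⟩
private noncomputable instance : Inv (HH K L) :=
  ⟨fun x => ⟨- actN x.k⁻¹ x.v, - actN x.k⁻¹ x.w, - x.c + bet L x.v x.w, x.k⁻¹⟩⟩

private theorem mul_v (x y : HH K L) : (x * y).v = x.v + actN x.k y.v := rfl
private theorem mul_w (x y : HH K L) : (x * y).w = x.w + actN x.k y.w := rfl
private theorem mul_c (x y : HH K L) :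
    (x * y).c = x.c + y.c + bet L x.v (actN x.k y.w) := rfl
private theorem mul_k (x y : HH K L) : (x * y).k = x.k * y.k := rfl
private theorem one_v : (1 : HH K L).v = 0 := rfl
private theorem one_w : (1 : HH K L).w = 0 := rfl
private theorem one_c : (1 : HH K L).c = 0 := rfl
private theorem one_k : (1 : HH K L).k = 1 := rfl
private theorem inv_v (x : HH K L) : (x⁻¹).v = - actN x.k⁻¹ x.v := rfl
private theorem inv_w (x : HH K L) : (x⁻¹).w = - actN x.k⁻¹ x.w := rfl
private theorem inv_c (x : HH K L) : (x⁻¹).c = - x.c + bet L x.v x.w := rfl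
private theorem inv_k (x : HH K L) : (x⁻¹).k = x.k⁻¹ := rfl

private noncomputable instance : Group (HH K L) where
  mul_assoc x y z := by
    refine HH.ext ?_ ?_ ?_ ?_
    · rw [mul_v, mul_v, mul_v, mul_v, mul_k, map_add, actN_mul, add_assoc]
    · rw [mul_w, mul_w, mul_w, mul_w, mul_k, map_add, actN_mul, add_assoc]
    · rw [mul_c, mul_c, mul_c, mul_c, mul_k, mul_v, mul_w, map_add, map_add, map_add,
        LinearMap.add_apply, actN_mul, bet_act]
      abel
    · exact mul_assoc _ _ _
  one_mul x := by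
    refine HH.ext ?_ ?_ ?_ ?_
    · rw [mul_v, one_v, one_k, actN_one, zero_add]
    · rw [mul_w, one_w, one_k, actN_one, zero_add]
    · rw [mul_c, one_c, one_v, map_zero, LinearMap.zero_apply, zero_add, add_zero]
    · exact one_mul _
  mul_one x := by
    refine HH.ext ?_ ?_ ?_ ?_
    · rw [mul_v, one_v, map_zero, add_zero]
    · rw [mul_w, one_w, map_zero, add_zero]
    · rw [mul_c, one_c, one_w, map_zero, map_zero, add_zero, add_zero]
    · exact mul_one _
  inv_mul_cancel x := by
    refine HH.ext ?_ ?_ ?_ ?_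
    · rw [mul_v, inv_v, inv_k, one_v, neg_add_cancel]
    · rw [mul_w, inv_w, inv_k, one_w, neg_add_cancel]
    · rw [mul_c, inv_c, inv_v, inv_k, one_c, map_neg, LinearMap.neg_apply, bet_act]
      abel
    · exact inv_mul_cancel _

private theorem central_mul (x g : HH K L) (hv : x.v = 0) (hw : x.w = 0) (hk : x.k = 1) :
    x * g = g * x := by
  refine HH.ext ?_ ?_ ?_ ?_
  · rw [mul_v, mul_v, hv, hk, actN_one, map_zero, zero_add, add_zero]
  · rw [mul_w, mul_w, hw, hk, actN_one, map_zero, zero_add, add_zero]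
  · rw [mul_c, mul_c, hv, hw, map_zero, map_zero, map_zero, LinearMap.zero_apply, add_zero,
      add_zero, add_comm]
  · rw [mul_k, mul_k, hk, one_mul, mul_one]

/-- the central subgroup of the `(0, 0, c, 1)` with `c` supported in `T` -/
private noncomputable def cen (K : Type) [Group K] (L : K → ℕ) (T : Finset ℕ) :
    Subgroup (HH K L) where
  carrier := {x | x.v = 0 ∧ x.w = 0 ∧ x.k = 1 ∧ x.c.support ⊆ T}
  mul_mem' := by
    classical
    rintro x y ⟨h1, h2, h3, h4⟩ ⟨h5, h6, h7, h8⟩
    refine ⟨?_, ?_, ?_, ?_⟩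
    · rw [mul_v, h1, h5, map_zero, add_zero]
    · rw [mul_w, h2, h6, map_zero, add_zero]
    · rw [mul_k, h3, h7, one_mul]
    · rw [mul_c, h1, map_zero, LinearMap.zero_apply, add_zero]
      exact Finsupp.support_add.trans (Finset.union_subset h4 h8)
  one_mem' := ⟨rfl, rfl, rfl, by rw [one_c]; simp⟩
  inv_mem' := by
    rintro x ⟨h1, h2, h3, h4⟩
    refine ⟨?_, ?_, ?_, ?_⟩
    · rw [inv_v, h1, map_zero, neg_zero]
    · rw [inv_w, h2, map_zero, neg_zero]
    · rw [inv_k, h3, inv_one]
    · rw [inv_c, h1, map_zero, LinearMap.zero_apply, add_zero, Finsupp.support_neg]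
      exact h4

private instance (T : Finset ℕ) : (cen K L T).Normal := by
  constructor
  intro x hx g
  have h : g * x * g⁻¹ = x := by
    rw [← central_mul x g hx.1 hx.2.1 hx.2.2.1, mul_inv_cancel_right]
  rw [h]
  exact hx

end HH

private theorem bet_self {K : Type} [Group K] (L : K → ℕ) (v : K →₀ ℤ) (k : K) (n : ℕ)
    (h : ∀ x, v x ≠ 0 → ∀ y, v y ≠ 0 → L (x⁻¹ * k * y) = n) :
    bet L v (actN k v) = Finsupp.single n ((v.sum fun _ m => m) * (v.sum fun _ m => m)) := by
  classical
  rw [bet_apply]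
  have h1 : ∀ x, v x ≠ 0 → Finsupp.mapDomain (fun y => L (x⁻¹ * y)) (actN k v) =
      Finsupp.single n (v.sum fun _ m => m) := by
    intro x hx
    show Finsupp.mapDomain (fun y => L (x⁻¹ * y)) (Finsupp.mapDomain (fun x => k * x) v) = _
    rw [← Finsupp.mapDomain_comp, Finsupp.mapDomain, Finsupp.sum, Finsupp.sum,
      ← Finsupp.singleAddHom_apply, map_sum]
    refine Finset.sum_congr rfl fun y hy => ?_
    rw [Finsupp.singleAddHom_apply]
    congr 1
    show L (x⁻¹ * (k * y)) = n
    rw [← mul_assoc]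
    exact h x hx y (Finsupp.mem_support_iff.1 hy)
  rw [Finsupp.sum]
  rw [Finset.sum_congr rfl (g := fun x => Finsupp.single n (v x * v.sum fun _ m => m))
    (fun x hx => by rw [h1 x (Finsupp.mem_support_iff.1 hx), Finsupp.smul_single, smul_eq_mul])]
  rw [← Finsupp.single_finsetSum, ← Finset.sum_mul]
  rfl

theorem nfp {F Q K : Type} [Group F] [Group Q] [Group K] (p : F →* Q) (f : Q →* K) (L : K → ℕ)
    (d : F → (K →₀ ℤ))
    (hd : ∀ u v, d (u * v) = d u + Finsupp.mapDomain (fun x => f (p u) * x) (d v))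
    (r : F) (hr : p r = 1) (X : Set K) (hX : ∀ x, d r x ≠ 0 → x ∈ X)
    (haug : (d r).sum (fun _ m => m) ≠ 0)
    (hL : ∀ N : ℕ, ∃ g : F, ∃ n, N ≤ n ∧ ∀ x ∈ X, ∀ y ∈ X, L (x⁻¹ * f (p g) * y) = n) :
    ¬ Group.IsFinitelyPresented (fib p p) := by
  classical
  rintro ⟨n, φ, hφ, T, hT, hker⟩
  have hd1 : d 1 = 0 := by
    have h := hd 1 1
    have e : Finsupp.mapDomain (fun x => f (p 1) * x) (d 1) = d 1 := by
      have := actN_one (d 1)
      rw [map_one, map_one]
      exact this
    rw [e, mul_one] at h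
    exact (left_eq_add.1 h)
  have hd' : ∀ u v, d (u * v) = d u + actN (f (p u)) (d v) := hd
  have hdi : ∀ u, d u⁻¹ = - actN (f (p u))⁻¹ (d u) := by
    intro u
    have h := hd' u⁻¹ u
    rw [inv_mul_cancel, hd1, map_inv, map_inv] at h
    exact eq_neg_of_add_eq_zero_left h.symm
  let Ψ : FreeGroup (Fin n) →* HH K L := FreeGroup.lift fun i =>
    ⟨d (φ (FreeGroup.of i)).1.1, d (φ (FreeGroup.of i)).1.2, 0, f (p (φ (FreeGroup.of i)).1.1)⟩
  have hΨ : ∀ w, (Ψ w).v = d (φ w).1.1 ∧ (Ψ w).w = d (φ w).1.2 ∧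
      (Ψ w).k = f (p (φ w).1.1) := by
    intro w
    have hfib : ∀ w, p (φ w).1.1 = p (φ w).1.2 := fun w => (mem_fib p p _).1 (φ w).2
    induction w using FreeGroup.induction_on with
    | C1 =>
      rw [map_one, map_one]
      refine ⟨hd1.symm, hd1.symm, ?_⟩
      show (1 : K) = f (p 1)
      rw [map_one, map_one]
    | of i =>
      have e : Ψ (FreeGroup.of i) = ⟨d (φ (FreeGroup.of i)).1.1, d (φ (FreeGroup.of i)).1.2, 0,
          f (p (φ (FreeGroup.of i)).1.1)⟩ := FreeGroup.lift_apply_of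
      rw [e]
      exact ⟨rfl, rfl, rfl⟩
    | inv_of i ih =>
      obtain ⟨h1, h2, h3⟩ := ih
      rw [map_inv, map_inv]
      refine ⟨?_, ?_, ?_⟩
      · rw [HH.inv_v, h1, h3]
        exact (hdi _).symm
      · rw [HH.inv_w, h2, h3, hfib]
        exact (hdi _).symm
      · rw [HH.inv_k, h3]
        show _ = f (p (φ (FreeGroup.of i)).1.1⁻¹)
        rw [map_inv, map_inv]
    | mul a b iha ihb =>
      obtain ⟨h1, h2, h3⟩ := iha
      obtain ⟨h4, h5, h6⟩ := ihb
      rw [map_mul, map_mul]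
      refine ⟨?_, ?_, ?_⟩
      · rw [HH.mul_v, h1, h3, h4]
        exact (hd' _ _).symm
      · rw [HH.mul_w, h2, h3, h5, hfib]
        exact (hd' _ _).symm
      · rw [HH.mul_k, h3, h6]
        show _ = f (p ((φ a).1.1 * (φ b).1.1))
        rw [map_mul, map_mul]
  let T' : Finset ℕ := hT.toFinset.biUnion fun w => (Ψ w).c.support
  have hle : φ.ker ≤ (HH.cen K L T').comap Ψ := by
    rw [← hker]
    refine Subgroup.normalClosure_le_normal ?_
    intro w hw
    have hw1 : φ w = 1 := by
      have : w ∈ φ.ker := by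
        rw [← hker]
        exact Subgroup.subset_normalClosure hw
      exact this
    obtain ⟨h1, h2, h3⟩ := hΨ w
    rw [hw1] at h1 h2 h3
    refine ⟨h1.trans hd1, h2.trans hd1, h3.trans ?_, ?_⟩
    · show f (p 1) = 1
      rw [map_one, map_one]
    · exact Finset.subset_biUnion_of_mem (fun w => (Ψ w).c.support) (hT.mem_toFinset.2 hw)
  obtain ⟨g, m, hm, hLg⟩ := hL (T'.sup id + 1)
  have hgr : p (g * r * g⁻¹) = 1 := by
    rw [map_mul, map_mul, hr, mul_one, ← map_mul, mul_inv_cancel, map_one]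
  obtain ⟨w₁, hw₁⟩ := hφ (fibL p p r hr)
  obtain ⟨w₂, hw₂⟩ := hφ (fibR p p (g * r * g⁻¹) hgr)
  have hcomm : w₁ * w₂ * (w₂ * w₁)⁻¹ ∈ φ.ker := by
    rw [MonoidHom.mem_ker, map_mul, map_inv, map_mul, map_mul, hw₁, hw₂, mul_inv_eq_one]
    apply Subtype.ext
    show (r, (1 : F)) * ((1 : F), g * r * g⁻¹) = ((1 : F), g * r * g⁻¹) * (r, 1)
    simp
  have hsupp := (hle hcomm).2.2.2
  obtain ⟨a1, a2, a3⟩ := hΨ w₁
  obtain ⟨b1, b2, b3⟩ := hΨ w₂
  rw [hw₁] at a1 a2 a3
  rw [hw₂] at b1 b2 b3
  have a1' : (Ψ w₁).v = d r := a1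
  have a2' : (Ψ w₁).w = 0 := a2.trans hd1
  have a3' : (Ψ w₁).k = 1 := a3.trans (by show f (p r) = 1; rw [hr, map_one])
  have b1' : (Ψ w₂).v = 0 := b1.trans hd1
  have b3' : (Ψ w₂).k = 1 := b3.trans (by show f (p 1) = 1; rw [map_one, map_one])
  have b2' : (Ψ w₂).w = actN (f (p g)) (d r) := by
    rw [b2]
    show d (g * r * g⁻¹) = _
    rw [hd', hd', map_mul, hr, mul_one, hdi, map_neg, ← actN_mul, mul_inv_cancel, actN_one]
    abel
  have hz : Ψ (w₁ * w₂ * (w₂ * w₁)⁻¹) =
      (⟨0, 0, bet L (d r) (actN (f (p g)) (d r)), 1⟩ : HH K L) := by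
    rw [map_mul, map_inv, mul_inv_eq_iff_eq_mul, map_mul, map_mul]
    refine HH.ext ?_ ?_ ?_ ?_
    · rw [HH.mul_v, HH.mul_v, HH.mul_v, a1', b1', a3', b3', actN_one, actN_one, actN_one]
      abel
    · rw [HH.mul_w, HH.mul_w, HH.mul_w, a2', b2', a3', b3', actN_one, actN_one, actN_one]
      abel
    · rw [HH.mul_c, HH.mul_c, HH.mul_c, HH.mul_w, a1', a2', b1', b2', a3', b3', actN_one]
      simp only [map_zero, LinearMap.zero_apply]
      abel
    · rw [HH.mul_k, HH.mul_k, HH.mul_k, a3', b3']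
      simp
  rw [hz] at hsupp
  have hb := bet_self L (d r) (f (p g)) m (fun x hx y hy => hLg x (hX x hx) y (hX y hy))
  have hm1 : m ∈ T' := by
    apply hsupp
    show m ∈ (bet L (d r) (actN (f (p g)) (d r))).support
    rw [hb, Finsupp.mem_support_iff, Finsupp.single_eq_same]
    exact mul_ne_zero haug haug
  have hm2 : m ≤ T'.sup id := Finset.le_sup (f := id) hm1
  omega

end ProfArtin
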