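import Pool.Agent.Work.MP_f6e909_al.GP.Rho
import Pool.Agent.Work.MP_f6e909_al.GP.FibFg

/-!
# Structure of the subgroup `PP` (module Struct, size M)



`gx_comm`: elements of `⟨X⟩` and `⟨Y⟩` commute (closure induction twice, from `art_rel` with
`M x y = 2` and `alt_two`). `gx_rho`: on `⟨X⟩` the second component of `ρ` is trivial, on `⟨Y⟩`
the first one (closure induction).
`gx_surj`: `a ↦ piQ (ρ a).1` maps `⟨X⟩` onto `QQ` (every block occurs; `piQ` is onto and
`FreeGroup (Fin 2)` is generated by `of 0`, `of 1`).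

`pp_fg`: `⟨X⟩` and `⟨Y⟩` are finitely generated (`S` finite), `QQ` is finitely presented
(an instance: `PresentedGroup` of a finite set; `qRels` is finite), so by `fib_fg` the fibre product
of `⟨X⟩` and `⟨Y⟩` over `QQ` is finitely generated; the map `(a, b) ↦ a * b` is a homomorphism on
it (`gx_comm`) with image `P0`. So `PP` is generated by finitely many elements.

`pp_retract`: `r : PP → fib piQ piQ` is the restriction of `ρ` (it maps `P0` into the fibre product
by `gx_rho`, and the other generators to `1`); `s (u, v) = i u * j v`, where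
`i, j : F2 →* ArtinGroup M` map `of k` to `gen M x_k`, `gen M y_k`, with `x_k ∈ X`, `c x_k = k`,
`y_k ∈ Y`, `d y_k = k`; note `ρ (i u) = (u, 1)`, `ρ (j v) = (1, v)`, and `i u ∈ ⟨X⟩`,
`j v ∈ ⟨Y⟩`.
-/

namespace ProfArtin

variable {S : Type} {M : CoxeterMatrix S} {X Y : Set S} {c d : S → Fin 2}
  {ρ : ArtinGroup M →* F2 × F2}

theorem gx_comm (h : Sq M X Y c d) : ∀ a ∈ GX M X, ∀ b ∈ GX M Y, a * b = b * a := by
  have h0 : ∀ x ∈ X, ∀ y ∈ Y, gen M x * gen M y = gen M y * gen M x := by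
    intro x hx y hy
    have h1 := h.XY x hx y hy
    have hne : x ≠ y := by
      rintro rfl
      rw [M.diagonal] at h1
      omega
    have h2 := art_rel M hne (by rw [h1]; norm_num)
    rwa [h1, alt_two, alt_two] at h2
  have h1 : GX M Y ≤ Subgroup.centralizer (gen M '' X) := by
    refine (Subgroup.closure_le _).2 ?_
    rintro _ ⟨y, hy, rfl⟩
    refine Subgroup.mem_centralizer_iff.2 ?_
    rintro _ ⟨x, hx, rfl⟩
    exact h0 x hx y hy
  have h2 : GX M X ≤ Subgroup.centralizer (GX M Y : Set (ArtinGroup M)) := by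
    refine (Subgroup.closure_le _).2 ?_
    rintro _ ⟨x, hx, rfl⟩
    refine Subgroup.mem_centralizer_iff.2 ?_
    intro b hb
    exact (Subgroup.mem_centralizer_iff.1 (h1 hb) _ ⟨x, hx, rfl⟩).symm
  intro a ha b hb
  exact (Subgroup.mem_centralizer_iff.1 (h2 ha) b hb).symm

theorem gx_rho (h : Sq M X Y c d) (hρ : IsRho M X Y c d ρ) :
    (∀ a ∈ GX M X, (ρ a).2 = 1) ∧ ∀ b ∈ GX M Y, (ρ b).1 = 1 := by
  constructor
  · have h1 : GX M X ≤ ((MonoidHom.snd F2 F2).comp ρ).ker := by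
      refine (Subgroup.closure_le _).2 ?_
      rintro _ ⟨x, hx, rfl⟩
      show (ρ (gen M x)).2 = 1
      rw [hρ.onX x hx]
    exact fun a ha => h1 ha
  · have h1 : GX M Y ≤ ((MonoidHom.fst F2 F2).comp ρ).ker := by
      refine (Subgroup.closure_le _).2 ?_
      rintro _ ⟨x, hx, rfl⟩
      show (ρ (gen M x)).1 = 1
      rw [hρ.onY x hx]
    exact fun a ha => h1 ha

theorem gx_surj (h : Sq M X Y c d) (hρ : IsRho M X Y c d ρ) :
    (∀ x : QQ, ∃ a ∈ GX M X, piQ (ρ a).1 = x) ∧ ∀ x : QQ, ∃ b ∈ GX M Y, piQ (ρ b).2 = x := by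
  constructor
  · have h1 : (GX M X).map (piQ.comp ((MonoidHom.fst F2 F2).comp ρ)) = ⊤ := by
      rw [eq_top_iff, ← PresentedGroup.closure_range_of qRels, Subgroup.closure_le]
      rintro _ ⟨i, rfl⟩
      obtain ⟨x, hx, hi⟩ := h.cX i
      refine ⟨gen M x, Subgroup.subset_closure ⟨x, hx, rfl⟩, ?_⟩
      show piQ (ρ (gen M x)).1 = _
      rw [hρ.onX x hx, hi]
      rfl
    intro x
    have : x ∈ (GX M X).map (piQ.comp ((MonoidHom.fst F2 F2).comp ρ)) := by rw [h1]; trivial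
    exact this
  · have h1 : (GX M Y).map (piQ.comp ((MonoidHom.snd F2 F2).comp ρ)) = ⊤ := by
      rw [eq_top_iff, ← PresentedGroup.closure_range_of qRels, Subgroup.closure_le]
      rintro _ ⟨i, rfl⟩
      obtain ⟨x, hx, hi⟩ := h.dY i
      refine ⟨gen M x, Subgroup.subset_closure ⟨x, hx, rfl⟩, ?_⟩
      show piQ (ρ (gen M x)).2 = _
      rw [hρ.onY x hx, hi]
      rfl
    intro x
    have : x ∈ (GX M Y).map (piQ.comp ((MonoidHom.snd F2 F2).comp ρ)) := by rw [h1]; trivial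
    exact this

private theorem qq_fp : Group.IsFinitelyPresented QQ := by
  have : Finite qRels := by
    have h : qRels.Finite := Set.toFinite {bg aF tF, bg aF' sF}
    exact h.to_subtype
  infer_instance

private theorem fg_closure {G : Type} [Group G] {A : Set G} (hA : A.Finite) :
    Group.FG (Subgroup.closure A) := by
  rw [Group.fg_iff_subgroup_fg, Subgroup.fg_iff]
  exact ⟨A, rfl, hA⟩

theorem pp_fg [Finite S] (h : Sq M X Y c d) (hρ : IsRho M X Y c d ρ) :
    Group.FG (PP M X Y ρ) := by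
  have := qq_fp
  have hA : Group.FG (GX M X) := fg_closure ((Set.toFinite X).image _)
  have hB : Group.FG (GX M Y) := fg_closure ((Set.toFinite Y).image _)
  let p : GX M X →* QQ := (piQ.comp ((MonoidHom.fst F2 F2).comp ρ)).comp (GX M X).subtype
  let q : GX M Y →* QQ := (piQ.comp ((MonoidHom.snd F2 F2).comp ρ)).comp (GX M Y).subtype
  have hp : Function.Surjective p := by
    intro x
    obtain ⟨a, ha, hax⟩ := (gx_surj h hρ).1 x
    exact ⟨⟨a, ha⟩, hax⟩
  have hq : Function.Surjective q := by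
    intro x
    obtain ⟨a, ha, hax⟩ := (gx_surj h hρ).2 x
    exact ⟨⟨a, ha⟩, hax⟩
  have hF : Group.FG (fib p q) := fib_fg p q hp hq
  let μ : fib p q →* ArtinGroup M :=
    (MonoidHom.noncommCoprod (GX M X).subtype (GX M Y).subtype
      (fun a b => gx_comm h a.1 a.2 b.1 b.2)).comp (fib p q).subtype
  have hμ : ∀ x : fib p q, μ x = (x.1.1 : ArtinGroup M) * (x.1.2 : ArtinGroup M) := fun _ => rfl
  have hrange : (μ.range : Set (ArtinGroup M)) = P0 M X Y ρ := by
    ext g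
    constructor
    · rintro ⟨x, rfl⟩
      exact ⟨x.1.1, x.1.1.2, x.1.2, x.1.2.2, x.2, hμ x⟩
    · rintro ⟨a, ha, b, hb, hab, rfl⟩
      exact ⟨⟨(⟨a, ha⟩, ⟨b, hb⟩), hab⟩, rfl⟩
  have hrFG : Group.FG μ.range := Group.fg_range μ
  obtain ⟨T, hT, hTf⟩ := (Subgroup.fg_iff _).1 ((Group.fg_iff_subgroup_fg _).1 hrFG)
  rw [Group.fg_iff_subgroup_fg, Subgroup.fg_iff]
  refine ⟨T ∪ gen M '' {w | w ∉ X ∧ w ∉ Y}, ?_, hTf.union ((Set.toFinite _).image _)⟩
  rw [PP, Subgroup.closure_union, Subgroup.closure_union, hT, ← hrange, Subgroup.closure_eq]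

theorem pp_retract (h : Sq M X Y c d) (hρ : IsRho M X Y c d ρ) :
    ∃ (r : PP M X Y ρ →* fib piQ piQ) (s : fib piQ piQ →* PP M X Y ρ), ∀ x, r (s x) = x := by
  have hr : PP M X Y ρ ≤ (fib piQ piQ).comap ρ := by
    refine (Subgroup.closure_le _).2 ?_
    rintro _ (⟨a, ha, b, hb, hab, rfl⟩ | ⟨w, ⟨hw1, hw2⟩, rfl⟩)
    · show piQ (ρ (a * b)).1 = piQ (ρ (a * b)).2
      rw [map_mul]
      show piQ ((ρ a).1 * (ρ b).1) = piQ ((ρ a).2 * (ρ b).2)
      rw [(gx_rho h hρ).1 a ha, (gx_rho h hρ).2 b hb, mul_one, one_mul, hab]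
    · show piQ (ρ (gen M w)).1 = piQ (ρ (gen M w)).2
      rw [hρ.onW w hw1 hw2]
      rfl
  choose xk hxk hcx using h.cX
  choose yk hyk hdy using h.dY
  let i : F2 →* ArtinGroup M := FreeGroup.lift fun k => gen M (xk k)
  let j : F2 →* ArtinGroup M := FreeGroup.lift fun k => gen M (yk k)
  have hi : ∀ u, i u ∈ GX M X := by
    have h1 : i.range ≤ GX M X := by
      refine FreeGroup.range_lift_le ?_
      rintro _ ⟨k, rfl⟩
      exact Subgroup.subset_closure ⟨xk k, hxk k, rfl⟩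
    exact fun u => h1 ⟨u, rfl⟩
  have hj : ∀ u, j u ∈ GX M Y := by
    have h1 : j.range ≤ GX M Y := by
      refine FreeGroup.range_lift_le ?_
      rintro _ ⟨k, rfl⟩
      exact Subgroup.subset_closure ⟨yk k, hyk k, rfl⟩
    exact fun u => h1 ⟨u, rfl⟩
  have hρi : ∀ u, ρ (i u) = (u, 1) := by
    have h1 : ρ.comp i = MonoidHom.inl F2 F2 := by
      refine FreeGroup.ext_hom _ _ fun k => ?_
      show ρ (FreeGroup.lift (fun k => gen M (xk k)) (FreeGroup.of k)) = (FreeGroup.of k, 1)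
      rw [FreeGroup.lift_apply_of, hρ.onX _ (hxk k), hcx]
    exact fun u => DFunLike.congr_fun h1 u
  have hρj : ∀ u, ρ (j u) = (1, u) := by
    have h1 : ρ.comp j = MonoidHom.inr F2 F2 := by
      refine FreeGroup.ext_hom _ _ fun k => ?_
      show ρ (FreeGroup.lift (fun k => gen M (yk k)) (FreeGroup.of k)) = (1, FreeGroup.of k)
      rw [FreeGroup.lift_apply_of, hρ.onY _ (hyk k), hdy]
    exact fun u => DFunLike.congr_fun h1 u
  let μ : fib piQ piQ →* ArtinGroup M :=
    (MonoidHom.noncommCoprod i j (fun a b => gx_comm h _ (hi a) _ (hj b))).comp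
      (fib piQ piQ).subtype
  have hμ : ∀ x, μ x ∈ PP M X Y ρ := by
    intro x
    refine Subgroup.subset_closure (Or.inl ⟨i x.1.1, hi _, j x.1.2, hj _, ?_, rfl⟩)
    rw [hρi, hρj]
    exact x.2
  refine ⟨(ρ.comp (PP M X Y ρ).subtype).codRestrict (fib piQ piQ) (fun g => hr g.2),
    μ.codRestrict (PP M X Y ρ) hμ, ?_⟩
  intro x
  apply Subtype.ext
  show ρ (i x.1.1 * j x.1.2) = x.1
  rw [map_mul, hρi, hρj]
  ext <;> simp

end ProfArtin
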